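import Mathlib

open Finset

namespace Pool.Agent.Helper536.KB

/-- Euclidean norm on `Fin n → ℂ` -/
noncomputable def nrm {n : ℕ} (x : Fin n → ℂ) : ℝ := Real.sqrt (∑ i, ‖x i‖ ^ 2)

/-- cyclic shift of the coordinates -/
def rot {n : ℕ} (j : Fin n) (x : Fin n → ℂ) : Fin n → ℂ := fun i => x (i - j)

/-- Parameters: `p i` is the amplitude of the wave `w ^ 2 ^ i`; there are `M + 5` coordinates. -/
structure Par where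
  M : ℕ
  J : ℕ
  p : ℕ → ℝ
  hJ : 1 ≤ J
  hM : J + 12 ≤ M
  p0 : p 0 = 3 / 5120
  p1 : p 1 = 13 / 10240
  pmono : ∀ i, 1 ≤ i → i < M + 4 → p i ≤ p (i + 1)
  pstep : ∀ i, 1 ≤ i → i < M + 4 → p (i + 1) ≤ p i + 1 / 2 ^ 40
  pnn : ∀ i, 0 ≤ p i
  ple : ∀ i, p i ≤ 1
  pone : ∀ i, J ≤ i → i < M + 5 → p i = 1
  pK : p (M + 5) = 0

namespace Par

/-- number of holes in one row -/
def N (Q : Par) : ℕ := 2 ^ (Q.M + 10)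

/-- radius of the circle at height `y` -/
noncomputable def rad (Q : Par) (y : ℝ) : ℝ := Real.exp (-(y / 2 ^ Q.M))

noncomputable def E0 (Q : Par) (w : ℂ) : ℂ := Complex.exp 1024 * w ^ Q.N
noncomputable def E1 (Q : Par) (w : ℂ) : ℂ := Complex.exp (-1280) / w ^ Q.N
noncomputable def T0 (Q : Par) (w : ℂ) : ℂ := 1 / (1 - Q.E0 w)
noncomputable def U1 (Q : Par) (w : ℂ) : ℂ := 1 / (1 - Q.E1 w)

noncomputable def FA (Q : Par) (w : ℂ) : Fin (Q.M + 5) → ℂ :=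
  fun i => (Q.p (i : ℕ) : ℂ) * w ^ (2 ^ (i : ℕ))
noncomputable def FB (Q : Par) (w : ℂ) : Fin (Q.M + 5) → ℂ :=
  fun i => (Q.p ((i : ℕ) + 1) : ℂ) * w ^ (2 ^ (i : ℕ))
noncomputable def F0 (Q : Par) (w : ℂ) : Fin (Q.M + 5) → ℂ :=
  fun i => if (i : ℕ) = 0 then 0 else (Q.p (i : ℕ) : ℂ) * w ^ (2 ^ (i : ℕ))
noncomputable def DD (Q : Par) (w : ℂ) : Fin (Q.M + 5) → ℂ :=
  fun i => ((Q.p ((i : ℕ) + 1) - Q.p (i : ℕ) : ℝ) : ℂ) * w ^ (2 ^ (i : ℕ))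
def e0 (Q : Par) : Fin (Q.M + 5) → ℂ := fun i => if (i : ℕ) = 0 then 1 else 0

/-- the curve near a row of holes of type 0 (birth row) and of type 1 (growth row) -/
noncomputable def R0 (Q : Par) (w : ℂ) : Fin (Q.M + 5) → ℂ :=
  fun i => Q.F0 w i + (Q.p 0 : ℂ) * w * Q.T0 w * Q.e0 i
noncomputable def R1 (Q : Par) (w : ℂ) : Fin (Q.M + 5) → ℂ :=
  fun i => Q.FB w i - Q.U1 w * Q.DD w i

/-- centres of the balls -/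
noncomputable def C0 (Q : Par) (ω : ℂ) : Fin (Q.M + 5) → ℂ := Q.F0 (ω * (Q.rad 1 : ℂ))
noncomputable def C1 (Q : Par) (ω : ℂ) : Fin (Q.M + 5) → ℂ := Q.FB (ω * (Q.rad (5 / 4) : ℂ))
def Cen (Q : Par) : Set (Fin (Q.M + 5) → ℂ) :=
  {c | ∃ (j : Fin (Q.M + 5)) (ω : ℂ), ω ^ Q.N = 1 ∧ (c = rot j (Q.C0 ω) ∨ c = rot j (Q.C1 ω))}

/-- the union of the balls -/
def InX (Q : Par) (x : Fin (Q.M + 5) → ℂ) : Prop := ∃ c ∈ Q.Cen, nrm (x - c) ≤ 31 / 25600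

/-- thickened middle circles -/
def InT (Q : Par) (x : Fin (Q.M + 5) → ℂ) : Prop :=
  ∃ (j : Fin (Q.M + 5)) (w : ℂ) (η : Fin (Q.M + 5) → ℂ), nrm η ≤ 1 / 2 ^ 20 ∧
    ((‖w‖ = Q.rad (9 / 8) ∧ x = rot j (Q.FA w + η)) ∨
      (‖w‖ = Q.rad (13 / 8) ∧ x = rot j (Q.FB w + η)))

noncomputable def gA (Q : Par) (w : ℂ) : ℂ := Q.T0 w + Q.U1 w - 1
noncomputable def gB (Q : Par) (v : ℂ) : ℂ := 1 - Q.U1 (v ^ 2) - Q.T0 v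

noncomputable def PsiA (Q : Par) (c : Fin (Q.M + 5) → ℂ) (w : ℂ) : Fin (Q.M + 5) → ℂ :=
  fun i => Q.R0 w i + (1 - Q.U1 w) * Q.DD w i + Q.gA w * c i
noncomputable def PsiB (Q : Par) (c : Fin (Q.M + 5) → ℂ) (v : ℂ) : Fin (Q.M + 5) → ℂ :=
  fun i => rot 1 (Q.R1 (v ^ 2)) i + (Q.p 0 : ℂ) * v * Q.T0 v * Q.e0 i + Q.gB v * c i

def GA (Q : Par) : Set ℂ :=
  {w | Q.rad (13 / 8) < ‖w‖ ∧ ‖w‖ < Q.rad (13 / 16) ∧ 2 / 3 < ‖1 - Q.E0 w‖ ∧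
    2 / 3 * ‖w ^ Q.N‖ < ‖w ^ Q.N - Complex.exp (-1280)‖}
def GB (Q : Par) : Set ℂ :=
  {v | Q.rad (9 / 8) < ‖v‖ ∧ ‖v‖ < Q.rad (9 / 16) ∧ 2 / 3 < ‖1 - Q.E0 v‖ ∧
    2 / 3 * ‖(v ^ 2) ^ Q.N‖ < ‖(v ^ 2) ^ Q.N - Complex.exp (-1280)‖}

end Par

end Pool.Agent.Helper536.KB
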