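import Pool.Agent.Helper536.Kb.Defs

open Finset

namespace Pool.Agent.Helper536.KB.Kab

theorem hull_abstract_diff {n : ℕ} (P : MvPolynomial (Fin n) ℂ) (Ψ : ℂ → Fin n → ℂ) (v : ℂ)
    (h : ∀ i, DifferentiableAt ℂ (fun z => Ψ z i) v) :
    DifferentiableAt ℂ (fun z => MvPolynomial.eval (Ψ z) P) v := by
  induction P using MvPolynomial.induction_on with
  | C a => simp
  | add p q hp hq =>
    simp only [map_add]
    exact hp.add hq
  | mul_X p i hp =>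
    simp only [map_mul, MvPolynomial.eval_X]
    exact hp.mul (h i)

/- TARGET -/
theorem hull_abstract {n : ℕ} (X T : (Fin n → ℂ) → Prop) (P : MvPolynomial (Fin n) ℂ) (m : ℝ)
    (hm : 0 ≤ m) (hX : ∀ x, X x → ‖MvPolynomial.eval x P‖ ≤ m)
    (hT : ∃ B : ℝ, ∀ x, T x → ‖MvPolynomial.eval x P‖ ≤ B)
    (piece : ∀ p, T p → ∃ (G : Set ℂ) (Ψ : ℂ → Fin n → ℂ) (g : ℂ → ℂ) (v₀ : ℂ),
      Bornology.IsBounded G ∧ v₀ ∈ G ∧
      (∀ v ∈ closure G, (∀ i, DifferentiableAt ℂ (fun z => Ψ z i) v) ∧ DifferentiableAt ℂ g v) ∧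
      Ψ v₀ = p ∧ 1 / 2 ≤ ‖g v₀‖ ∧
      ∀ v ∈ frontier G, (X (Ψ v) ∧ ‖g v‖ ≤ 3) ∨ (T (Ψ v) ∧ ‖g v‖ ≤ 1 / 4)) :
    ∀ p, T p → ‖MvPolynomial.eval p P‖ ≤ m := by
  intro p0 hp0
  by_contra hcon
  push Not at hcon
  set A : Set ℝ := (fun x => ‖MvPolynomial.eval x P‖) '' {x | T x} with hA
  obtain ⟨B, hB⟩ := hT
  have hbdd : BddAbove A := by
    refine ⟨B, ?_⟩
    rintro _ ⟨x, hx, rfl⟩
    exact hB x hx
  have hne : A.Nonempty := ⟨_, p0, hp0, rfl⟩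
  set S : ℝ := sSup A with hS
  have hle : ∀ x, T x → ‖MvPolynomial.eval x P‖ ≤ S := fun x hx => le_csSup hbdd ⟨x, hx, rfl⟩
  have hmS : m < S := lt_of_lt_of_le hcon (hle p0 hp0)
  have hS0 : 0 < S := lt_of_le_of_lt hm hmS
  -- choose k
  obtain ⟨k, hk⟩ : ∃ k : ℕ, (m / S) ^ k < 1 / 12 :=
    exists_pow_lt_of_lt_one (by norm_num) ((div_lt_one hS0).2 hmS)
  have hk1 : 1 ≤ k := by
    rcases Nat.eq_zero_or_pos k with h | h
    · subst h; norm_num at hk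
    · exact h
  have hkS : 6 * m ^ k ≤ S ^ k / 2 := by
    rw [div_pow, div_lt_iff₀ (by positivity)] at hk
    linarith
  -- key bound
  have key : ∀ p, T p → ‖MvPolynomial.eval p P‖ ^ k ≤ S ^ k / 2 := by
    intro p hp
    obtain ⟨G, Ψ, g, v₀, hG, hv₀, hd, hΨ, hg, hfr⟩ := piece p hp
    have hdc : DiffContOnCl ℂ (fun v => (MvPolynomial.eval (Ψ v) P) ^ k * g v) G := by
      apply DifferentiableOn.diffContOnCl
      intro v hv
      obtain ⟨h1, h2⟩ := hd v hv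
      exact (((hull_abstract_diff P Ψ v h1).pow k).mul h2).differentiableWithinAt
    have hb : ∀ v ∈ frontier G, ‖(MvPolynomial.eval (Ψ v) P) ^ k * g v‖ ≤ S ^ k / 4 := by
      intro v hv
      rw [norm_mul, norm_pow]
      rcases hfr v hv with ⟨h1, h2⟩ | ⟨h1, h2⟩
      · calc ‖MvPolynomial.eval (Ψ v) P‖ ^ k * ‖g v‖ ≤ m ^ k * 3 := by
              apply mul_le_mul (pow_le_pow_left₀ (norm_nonneg _) (hX _ h1) k) h2 (norm_nonneg _)
                (by positivity)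
          _ ≤ S ^ k / 4 := by linarith
      · calc ‖MvPolynomial.eval (Ψ v) P‖ ^ k * ‖g v‖ ≤ S ^ k * (1 / 4) := by
              apply mul_le_mul (pow_le_pow_left₀ (norm_nonneg _) (hle _ h1) k) h2 (norm_nonneg _)
                (by positivity)
          _ = S ^ k / 4 := by ring
    have hmax := Complex.norm_le_of_forall_mem_frontier_norm_le hG hdc hb (subset_closure hv₀)
    rw [norm_mul, norm_pow, hΨ] at hmax
    have : ‖MvPolynomial.eval p P‖ ^ k * (1 / 2) ≤ ‖MvPolynomial.eval p P‖ ^ k * ‖g v₀‖ :=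
      mul_le_mul_of_nonneg_left hg (by positivity)
    linarith
  -- choose p close to the sup
  have hk0 : (0 : ℝ) < k := by exact_mod_cast hk1
  set t : ℝ := 1 - 1 / (4 * k) with ht
  have htpos : 0 ≤ t := by
    have : 1 / (4 * (k : ℝ)) ≤ 1 := by
      rw [div_le_one (by positivity)]
      have : (1 : ℝ) ≤ k := by exact_mod_cast hk1
      linarith
    linarith
  have ht1 : t < 1 := by
    have : 0 < 1 / (4 * (k : ℝ)) := by positivity
    linarith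
  have htk : 3 / 4 ≤ t ^ k := by
    have h1 := one_add_mul_le_pow (a := -(1 / (4 * (k : ℝ)))) (by linarith) k
    have h2 : 1 + (k : ℝ) * -(1 / (4 * (k : ℝ))) = 3 / 4 := by
      field_simp; norm_num
    rw [h2] at h1
    rw [ht, sub_eq_add_neg]
    exact h1
  have hlt : t * S < sSup A := by
    rw [← hS]; nlinarith
  obtain ⟨_, ⟨p, hp, rfl⟩, hlt'⟩ := exists_lt_of_lt_csSup hne hlt
  have h1 : (t * S) ^ k ≤ ‖MvPolynomial.eval p P‖ ^ k :=
    pow_le_pow_left₀ (by positivity) hlt'.le k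
  have h2 := key p hp
  rw [mul_pow] at h1
  have h3 : 0 < S ^ k := by positivity
  nlinarith

end Pool.Agent.Helper536.KB.Kab

namespace Pool.Agent.Helper536.KB

theorem hull_abstract {n : ℕ} (X T : (Fin n → ℂ) → Prop) (P : MvPolynomial (Fin n) ℂ) (m : ℝ)
    (hm : 0 ≤ m) (hX : ∀ x, X x → ‖MvPolynomial.eval x P‖ ≤ m)
    (hT : ∃ B : ℝ, ∀ x, T x → ‖MvPolynomial.eval x P‖ ≤ B)
    (piece : ∀ p, T p → ∃ (G : Set ℂ) (Ψ : ℂ → Fin n → ℂ) (g : ℂ → ℂ) (v₀ : ℂ),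
      Bornology.IsBounded G ∧ v₀ ∈ G ∧
      (∀ v ∈ closure G, (∀ i, DifferentiableAt ℂ (fun z => Ψ z i) v) ∧ DifferentiableAt ℂ g v) ∧
      Ψ v₀ = p ∧ 1 / 2 ≤ ‖g v₀‖ ∧
      ∀ v ∈ frontier G, (X (Ψ v) ∧ ‖g v‖ ≤ 3) ∨ (T (Ψ v) ∧ ‖g v‖ ≤ 1 / 4)) :
    ∀ p, T p → ‖MvPolynomial.eval p P‖ ≤ m := by
  first
    | exact Kab.hull_abstract
    | (apply Kab.hull_abstract <;> assumption)

end Pool.Agent.Helper536.KB
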