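import Pool.Agent.Helper536.Kb.Defs

open Finset

namespace Pool.Agent.Helper536.KB.Kal

theorem sub_one_val_pos {n : ℕ} (i : Fin (n + 5)) (hi : (i : ℕ) ≠ 0) : ((i - 1 : Fin (n + 5)) : ℕ) = (i : ℕ) - 1 := by
  have h1 : ((1 : Fin (n + 5)) : ℕ) = 1 := rfl
  rw [Fin.sub_def]
  simp only [h1]
  have := i.isLt
  rw [show n + 5 - 1 + (i : ℕ) = ((i : ℕ) - 1) + (n + 5) by omega, Nat.add_mod_right]
  exact Nat.mod_eq_of_lt (by omega)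

theorem sub_one_val_zero {n : ℕ} (i : Fin (n + 5)) (hi : (i : ℕ) = 0) : ((i - 1 : Fin (n + 5)) : ℕ) = n + 4 := by
  have h1 : ((1 : Fin (n + 5)) : ℕ) = 1 := rfl
  rw [Fin.sub_def]
  simp only [h1, hi]
  rw [show n + 5 - 1 + 0 = n + 4 by omega]
  exact Nat.mod_eq_of_lt (by omega)

theorem rot_FB' (Q : Par) (v : ℂ) : rot 1 (Q.FB (v ^ 2)) = Q.F0 v := by
  funext i
  simp only [rot, Par.FB, Par.F0]
  by_cases hi : (i : ℕ) = 0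
  · rw [if_pos hi, sub_one_val_zero i hi, Q.pK]; simp
  · rw [if_neg hi, sub_one_val_pos i hi]
    rw [show (i : ℕ) - 1 + 1 = (i : ℕ) by omega, ← pow_mul]
    congr 2
    rw [← pow_succ', show (i : ℕ) - 1 + 1 = (i : ℕ) by omega]

theorem fa_eq' (Q : Par) (w : ℂ) : (∀ i, Q.FA w i = Q.F0 w i + (Q.p 0 : ℂ) * w * Q.e0 i) ∧
    (∀ i, Q.FB w i = Q.FA w i + Q.DD w i) ∧
    (∀ v : ℂ, ∀ i, rot 1 (Q.FA (v ^ 2)) i = Q.F0 v i - rot 1 (Q.DD (v ^ 2)) i) := by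
  have hA : ∀ (w : ℂ) i, Q.FB w i = Q.FA w i + Q.DD w i := by
    intro w i
    simp only [Par.FB, Par.FA, Par.DD]
    push_cast; ring
  refine ⟨?_, hA w, ?_⟩
  · intro i
    simp only [Par.FA, Par.F0, Par.e0]
    by_cases hi : (i : ℕ) = 0
    · simp [hi]
    · simp [hi]
  · intro v i
    have h := congrFun (rot_FB' Q v) i
    rw [← h]
    simp only [rot]
    rw [hA]; ring

theorem rot_FB (Q : Par) (v : ℂ) : rot 1 (Q.FB (v ^ 2)) = Q.F0 v := by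
  funext i
  simp only [rot, Par.FB, Par.F0]
  by_cases hi : (i : ℕ) = 0
  · rw [if_pos hi, sub_one_val_zero i hi, Q.pK]; simp
  · rw [if_neg hi, sub_one_val_pos i hi]
    rw [show (i : ℕ) - 1 + 1 = (i : ℕ) by omega, ← pow_mul]
    congr 2
    rw [← pow_succ', show (i : ℕ) - 1 + 1 = (i : ℕ) by omega]

theorem psiA0 (Q : Par) (c : Fin (Q.M + 5) → ℂ) (w : ℂ) :
    Q.PsiA c w = fun i => Q.FB w i + (Q.T0 w - 1) * (Q.p 0 : ℂ) * w * Q.e0 i - Q.U1 w * Q.DD w i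
      + Q.gA w * c i := by
  funext i
  obtain ⟨h1, h2, -⟩ := fa_eq' Q w
  simp only [Par.PsiA, Par.R0]
  rw [h2, h1]; ring

theorem psiA1 (Q : Par) (c : Fin (Q.M + 5) → ℂ) (w : ℂ) :
    Q.PsiA c w = fun i => Q.R1 w i + (Q.T0 w - 1) * (Q.p 0 : ℂ) * w * Q.e0 i + Q.gA w * c i := by
  funext i
  obtain ⟨h1, h2, -⟩ := fa_eq' Q w
  simp only [Par.PsiA, Par.R0, Par.R1]
  rw [h2, h1]; ring

theorem psiB0 (Q : Par) (c : Fin (Q.M + 5) → ℂ) (v : ℂ) :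
    Q.PsiB c v = fun i => Q.F0 v i - Q.U1 (v ^ 2) * rot 1 (Q.DD (v ^ 2)) i
      + (Q.p 0 : ℂ) * v * Q.T0 v * Q.e0 i + Q.gB v * c i := by
  funext i
  have h := congrFun (rot_FB Q v) i
  simp only [Par.PsiB]
  rw [← h]
  simp only [rot, Par.R1]

theorem fa_eq (Q : Par) (w : ℂ) : (∀ i, Q.FA w i = Q.F0 w i + (Q.p 0 : ℂ) * w * Q.e0 i) ∧
    (∀ i, Q.FB w i = Q.FA w i + Q.DD w i) ∧
    (∀ v : ℂ, ∀ i, rot 1 (Q.FA (v ^ 2)) i = Q.F0 v i - rot 1 (Q.DD (v ^ 2)) i) := by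
  exact fa_eq' Q w

end Pool.Agent.Helper536.KB.Kal

namespace Pool.Agent.Helper536.KB

theorem rot_FB (Q : Par) (v : ℂ) : rot 1 (Q.FB (v ^ 2)) = Q.F0 v := by
  first
    | exact Kal.rot_FB
    | (apply Kal.rot_FB <;> assumption)

theorem psiA0 (Q : Par) (c : Fin (Q.M + 5) → ℂ) (w : ℂ) :
    Q.PsiA c w = fun i => Q.FB w i + (Q.T0 w - 1) * (Q.p 0 : ℂ) * w * Q.e0 i - Q.U1 w * Q.DD w i
      + Q.gA w * c i := by
  first
    | exact Kal.psiA0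
    | (apply Kal.psiA0 <;> assumption)

theorem psiA1 (Q : Par) (c : Fin (Q.M + 5) → ℂ) (w : ℂ) :
    Q.PsiA c w = fun i => Q.R1 w i + (Q.T0 w - 1) * (Q.p 0 : ℂ) * w * Q.e0 i + Q.gA w * c i := by
  first
    | exact Kal.psiA1
    | (apply Kal.psiA1 <;> assumption)

theorem psiB0 (Q : Par) (c : Fin (Q.M + 5) → ℂ) (v : ℂ) :
    Q.PsiB c v = fun i => Q.F0 v i - Q.U1 (v ^ 2) * rot 1 (Q.DD (v ^ 2)) i
      + (Q.p 0 : ℂ) * v * Q.T0 v * Q.e0 i + Q.gB v * c i := by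
  first
    | exact Kal.psiB0
    | (apply Kal.psiB0 <;> assumption)

theorem fa_eq (Q : Par) (w : ℂ) : (∀ i, Q.FA w i = Q.F0 w i + (Q.p 0 : ℂ) * w * Q.e0 i) ∧
    (∀ i, Q.FB w i = Q.FA w i + Q.DD w i) ∧
    (∀ v : ℂ, ∀ i, rot 1 (Q.FA (v ^ 2)) i = Q.F0 v i - rot 1 (Q.DD (v ^ 2)) i) := by
  first
    | exact Kal.fa_eq
    | (apply Kal.fa_eq <;> assumption)

end Pool.Agent.Helper536.KB
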