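import Pool.Agent.Helper536.Kb.Defs
import Pool.Agent.Helper536.Kb.Knr

open Finset

namespace Pool.Agent.Helper536.KB.Kdd

theorem tele (Q : Par) (k : ℕ) (hk : k + 1 ≤ Q.M + 4) (a : ℕ → ℝ) (ha1 : ∀ i, a i ≤ 1) :
    ∑ i ∈ range k, (Q.p (i + 2) - Q.p (i + 1)) ^ 2 * a (i + 1) ≤ 1 / 2 ^ 40 * (Q.p (k + 1) - Q.p 1) := by
  induction k with
  | zero => simp
  | succ k ih =>
    rw [sum_range_succ]
    have h1 := ih (by omega)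
    have h2 := Q.pmono (k + 1) (by omega) (by omega)
    have h3 := Q.pstep (k + 1) (by omega) (by omega)
    have h4 : (Q.p (k + 2) - Q.p (k + 1)) ^ 2 * a (k + 1) ≤ (1 / 2 ^ 40) * (Q.p (k + 2) - Q.p (k + 1)) := by
      have h5 : 0 ≤ Q.p (k + 2) - Q.p (k + 1) := sub_nonneg.mpr h2
      have h6 : Q.p (k + 2) - Q.p (k + 1) ≤ 1 / 2 ^ 40 := by linarith
      calc (Q.p (k + 2) - Q.p (k + 1)) ^ 2 * a (k + 1) ≤ (Q.p (k + 2) - Q.p (k + 1)) ^ 2 * 1 :=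
            mul_le_mul_of_nonneg_left (ha1 _) (by positivity)
        _ = (Q.p (k + 2) - Q.p (k + 1)) * (Q.p (k + 2) - Q.p (k + 1)) := by ring
        _ ≤ _ := mul_le_mul_of_nonneg_right h6 h5
    rw [show k + 1 + 1 = k + 2 by ring] at *
    linarith

theorem gen (Q : Par) (w : ℂ) (hw : ‖w‖ ≤ 1) :
    ∑ i : Fin (Q.M + 5), (if (i : ℕ) = 0 then (0 : ℝ) else ‖Q.DD w i‖ ^ 2) ≤
      1 / 2 ^ 40 + ‖w‖ ^ (2 ^ (Q.M + 5)) := by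
  have hn : ∀ i : Fin (Q.M + 5), ‖Q.DD w i‖ ^ 2 = (Q.p ((i : ℕ) + 1) - Q.p (i : ℕ)) ^ 2 * ‖w‖ ^ (2 ^ ((i : ℕ) + 1)) := by
    intro i
    simp only [Par.DD]
    rw [norm_mul, norm_pow, Complex.norm_real, mul_pow, ← pow_mul, ← pow_succ, Real.norm_eq_abs, sq_abs]
  have h1 : ∑ i : Fin (Q.M + 5), (if (i : ℕ) = 0 then (0 : ℝ) else ‖Q.DD w i‖ ^ 2) =
      ∑ i : Fin (Q.M + 5), (fun k : ℕ => if k = 0 then (0 : ℝ) else (Q.p (k + 1) - Q.p k) ^ 2 * ‖w‖ ^ (2 ^ (k + 1))) i := by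
    apply Finset.sum_congr rfl
    intro i _
    simp only [hn]
  rw [h1, Fin.sum_univ_eq_sum_range (fun k : ℕ => if k = 0 then (0 : ℝ) else (Q.p (k + 1) - Q.p k) ^ 2 * ‖w‖ ^ (2 ^ (k + 1))) (Q.M + 5)]
  rw [sum_range_succ, Finset.sum_range_succ']
  simp only [if_true, Nat.add_eq_zero_iff, one_ne_zero, and_false, if_false, add_zero]
  have h2 := tele Q (Q.M + 3) (by omega) (fun i => ‖w‖ ^ (2 ^ (i + 1))) (fun i => pow_le_one₀ (norm_nonneg _) hw)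
  have h3 : Q.p (Q.M + 3 + 1) - Q.p 1 ≤ 1 := by linarith [Q.ple (Q.M + 3 + 1), Q.pnn 1]
  have hM := Q.hM
  have h4 : Q.p (Q.M + 4) = 1 := Q.pone _ (by omega) (by omega)
  rw [show Q.M + 4 + 1 = Q.M + 5 by ring, Q.pK, h4]
  have h5 : ∑ i ∈ range (Q.M + 3), (Q.p (i + 1 + 1) - Q.p (i + 1)) ^ 2 * ‖w‖ ^ (2 ^ (i + 1 + 1)) ≤ 1 / 2 ^ 40 := by
    refine h2.trans ?_
    calc 1 / 2 ^ 40 * (Q.p (Q.M + 3 + 1) - Q.p 1) ≤ 1 / 2 ^ 40 * 1 := mul_le_mul_of_nonneg_left h3 (by positivity)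
      _ = _ := by ring
  have h6 : ((0:ℝ) - 1) ^ 2 * ‖w‖ ^ 2 ^ (Q.M + 5) = ‖w‖ ^ 2 ^ (Q.M + 5) := by ring
  rw [if_neg (by omega), h6]
  linarith

theorem dd_tail (Q : Par) (w : ℂ) (hw : ‖w‖ ≤ Q.rad (6 / 5)) :
    ∑ i : Fin (Q.M + 5), (if (i : ℕ) = 0 then (0 : ℝ) else ‖Q.DD w i‖ ^ 2) ≤ 1 / 2 ^ 38 := by
  have hr : Q.rad (6 / 5) ≤ 1 := by
    simp only [Par.rad]
    rw [Real.exp_le_one_iff]
    have : (0:ℝ) ≤ 6 / 5 / 2 ^ Q.M := by positivity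
    linarith
  refine (gen Q w (hw.trans hr)).trans ?_
  have h1 : ‖w‖ ^ (2 ^ (Q.M + 5)) ≤ Real.exp (-38) := by
    calc ‖w‖ ^ (2 ^ (Q.M + 5)) ≤ Q.rad (6 / 5) ^ (2 ^ (Q.M + 5)) := pow_le_pow_left₀ (norm_nonneg _) hw _
      _ = Real.exp (-(192 / 5)) := by
        simp only [Par.rad]
        rw [← Real.exp_nat_mul]
        congr 1
        push_cast
        rw [pow_add]
        field_simp
        norm_num
      _ ≤ Real.exp (-38) := by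
        apply Real.exp_le_exp.mpr; norm_num
  have h2 : Real.exp (-38) ≤ 1 / 2 ^ 39 := by
    rw [Real.exp_neg, ← one_div]
    apply one_div_le_one_div_of_le (by positivity)
    have h3 : Real.exp 38 = Real.exp 1 ^ 38 := by
      rw [← Real.exp_nat_mul]; norm_num
    rw [h3]
    have h4 := Real.exp_one_gt_d9
    calc (2:ℝ) ^ 39 ≤ 2.7 ^ 38 := by norm_num
      _ ≤ Real.exp 1 ^ 38 := pow_le_pow_left₀ (by norm_num) (by linarith) _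
  have h5 : (1:ℝ) / 2 ^ 40 + 1 / 2 ^ 39 ≤ 1 / 2 ^ 38 := by norm_num
  linarith

theorem dd_nrm (Q : Par) (w : ℂ) (hw : ‖w‖ ≤ 1) : nrm (Q.DD w) ≤ 2 := by
  rw [nrm_le_iff _ _ (by norm_num)]
  have h := gen Q w hw
  have hp : ‖w‖ ^ (2 ^ (Q.M + 5)) ≤ 1 := pow_le_one₀ (norm_nonneg _) hw
  have h0 : ∑ i : Fin (Q.M + 5), ‖Q.DD w i‖ ^ 2 ≤
      ∑ i : Fin (Q.M + 5), (if (i : ℕ) = 0 then (0 : ℝ) else ‖Q.DD w i‖ ^ 2) + ‖Q.DD w 0‖ ^ 2 := by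
    rw [← Finset.add_sum_erase _ _ (Finset.mem_univ (0 : Fin (Q.M + 5))),
      ← Finset.add_sum_erase _ (fun i : Fin (Q.M + 5) => if (i : ℕ) = 0 then (0 : ℝ) else ‖Q.DD w i‖ ^ 2) (Finset.mem_univ (0 : Fin (Q.M + 5)))]
    have : ∑ i ∈ Finset.univ.erase (0 : Fin (Q.M + 5)), ‖Q.DD w i‖ ^ 2 =
        ∑ i ∈ Finset.univ.erase (0 : Fin (Q.M + 5)), (if (i : ℕ) = 0 then (0 : ℝ) else ‖Q.DD w i‖ ^ 2) := by
      apply Finset.sum_congr rfl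
      intro i hi
      have hi' := (Finset.mem_erase.mp hi).1
      rw [if_neg]
      intro h
      exact hi' (Fin.ext h)
    rw [this]
    simp
    linarith
  have h1 : ‖Q.DD w 0‖ ≤ 1 := by
    simp only [Par.DD]
    rw [norm_mul, norm_pow, Complex.norm_real]
    have e0 : ((0 : Fin (Q.M + 5)) : ℕ) = 0 := rfl
    rw [e0, Q.p0, show 0 + 1 = 1 by rfl, Q.p1]
    have : ‖w‖ ^ 2 ^ 0 ≤ 1 := pow_le_one₀ (norm_nonneg _) hw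
    have h2 : ‖(13 / 10240 - 3 / 5120 : ℝ)‖ ≤ 1 := by
      rw [Real.norm_eq_abs, abs_le]; constructor <;> norm_num
    exact mul_le_one₀ h2 (by positivity) this
  have h2 : ‖Q.DD w 0‖ ^ 2 ≤ 1 := pow_le_one₀ (norm_nonneg _) h1
  have h3 : (1:ℝ) / 2 ^ 40 ≤ 1 := by norm_num
  linarith

end Pool.Agent.Helper536.KB.Kdd

namespace Pool.Agent.Helper536.KB

theorem dd_tail (Q : Par) (w : ℂ) (hw : ‖w‖ ≤ Q.rad (6 / 5)) :
    ∑ i : Fin (Q.M + 5), (if (i : ℕ) = 0 then (0 : ℝ) else ‖Q.DD w i‖ ^ 2) ≤ 1 / 2 ^ 38 := by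
  first
    | exact Kdd.dd_tail
    | (apply Kdd.dd_tail <;> assumption)

theorem dd_nrm (Q : Par) (w : ℂ) (hw : ‖w‖ ≤ 1) : nrm (Q.DD w) ≤ 2 := by
  first
    | exact Kdd.dd_nrm
    | (apply Kdd.dd_nrm <;> assumption)

end Pool.Agent.Helper536.KB
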