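import Pool.Agent.Helper536.Kb.Defs
import Pool.Agent.Helper536.Kb.Kne

open Finset

namespace Pool.Agent.Helper536.KB.Kdo

/- TARGET -/
theorem domain_gen (f g : ℂ → ℂ) (hf : Continuous f) (hg : Continuous g) (r₁ r₂ : ℝ) (a : ℂ)
    (G : Set ℂ) (hG : G = {w | r₁ < ‖w‖ ∧ ‖w‖ < r₂ ∧ 2 / 3 < ‖1 - f w‖ ∧ 2 / 3 * ‖g w‖ < ‖g w - a‖}) :
    IsOpen G ∧ Bornology.IsBounded G ∧
    (∀ w ∈ closure G, r₁ ≤ ‖w‖ ∧ ‖w‖ ≤ r₂ ∧ 2 / 3 ≤ ‖1 - f w‖ ∧ 2 / 3 * ‖g w‖ ≤ ‖g w - a‖) ∧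
    (∀ w ∈ frontier G, ‖w‖ = r₁ ∨ ‖w‖ = r₂ ∨ ‖1 - f w‖ = 2 / 3 ∨ 2 / 3 * ‖g w‖ = ‖g w - a‖) := by
  have c1 : Continuous fun w : ℂ => ‖w‖ := continuous_norm
  have c2 : Continuous fun w : ℂ => ‖1 - f w‖ := (continuous_const.sub hf).norm
  have c3 : Continuous fun w : ℂ => 2 / 3 * ‖g w‖ := continuous_const.mul hg.norm
  have c4 : Continuous fun w : ℂ => ‖g w - a‖ := (hg.sub continuous_const).norm
  have hopen : IsOpen G := by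
    rw [hG]
    exact (isOpen_lt continuous_const c1).inter ((isOpen_lt c1 continuous_const).inter
      ((isOpen_lt continuous_const c2).inter (isOpen_lt c3 c4)))
  have hcl : ∀ w ∈ closure G, r₁ ≤ ‖w‖ ∧ ‖w‖ ≤ r₂ ∧ 2 / 3 ≤ ‖1 - f w‖ ∧
      2 / 3 * ‖g w‖ ≤ ‖g w - a‖ := by
    have hsub : closure G ⊆ {w | r₁ ≤ ‖w‖ ∧ ‖w‖ ≤ r₂ ∧ 2 / 3 ≤ ‖1 - f w‖ ∧
      2 / 3 * ‖g w‖ ≤ ‖g w - a‖} := by
      refine closure_minimal ?_ ?_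
      · rw [hG]
        rintro w ⟨h1, h2, h3, h4⟩
        exact ⟨h1.le, h2.le, h3.le, h4.le⟩
      · exact (isClosed_le continuous_const c1).inter ((isClosed_le c1 continuous_const).inter
          ((isClosed_le continuous_const c2).inter (isClosed_le c3 c4)))
    exact fun w hw => hsub hw
  refine ⟨hopen, ?_, hcl, ?_⟩
  · refine (Metric.isBounded_ball (x := (0:ℂ)) (r := r₂)).subset ?_
    rw [hG]
    rintro w ⟨h1, h2, h3, h4⟩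
    rw [mem_ball_zero_iff]
    exact h2
  · intro w hw
    obtain ⟨h1, h2, h3, h4⟩ := hcl w (frontier_subset_closure hw)
    have hnot : w ∉ G := by
      rw [frontier, hopen.interior_eq] at hw
      exact hw.2
    by_contra hcon
    push Not at hcon
    obtain ⟨k1, k2, k3, k4⟩ := hcon
    apply hnot
    rw [hG]
    exact ⟨lt_of_le_of_ne h1 (Ne.symm k1), lt_of_le_of_ne h2 k2, lt_of_le_of_ne h3 (Ne.symm k3),
      lt_of_le_of_ne h4 k4⟩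

theorem rad_pos (Q : Par) (y : ℝ) : 0 < Q.rad y := Real.exp_pos _

theorem rad_lt (Q : Par) {y z : ℝ} (h : y < z) : Q.rad z < Q.rad y := by
  unfold Par.rad
  rw [Real.exp_lt_exp]
  have : (0:ℝ) < 2 ^ Q.M := by positivity
  have := div_lt_div_of_pos_right h this
  linarith

theorem E1_eq (Q : Par) (w : ℂ) (hw : w ≠ 0) :
    ‖1 - Q.E1 w‖ * ‖w ^ Q.N‖ = ‖w ^ Q.N - Complex.exp (-1280)‖ := by
  have h : w ^ Q.N ≠ 0 := pow_ne_zero _ hw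
  rw [← norm_mul]
  congr 1
  unfold Par.E1
  field_simp

theorem small128 : Real.exp (-128) < 1 / 3 := by
  have h1 : (129:ℝ) ≤ Real.exp 128 := by
    have := Real.add_one_le_exp (128:ℝ)
    linarith
  rw [Real.exp_neg]
  have h2 : (Real.exp 128)⁻¹ ≤ (129:ℝ)⁻¹ := inv_anti₀ (by norm_num) h1
  have h3 : (129:ℝ)⁻¹ < 1 / 3 := by norm_num
  linarith

theorem norm_one_sub_lb (z : ℂ) (h : ‖z‖ < 1 / 3) : 2 / 3 < ‖1 - z‖ := by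
  have := norm_sub_norm_le (1:ℂ) z
  rw [norm_one] at this
  linarith

theorem norm_one_sub_ub (z : ℂ) (h : 2 < ‖z‖) : 2 / 3 < ‖1 - z‖ := by
  have := norm_sub_norm_le z (1:ℂ)
  rw [norm_one, norm_sub_rev] at this
  linarith

theorem cont_E0 (Q : Par) : Continuous Q.E0 := by
  unfold Par.E0
  exact continuous_const.mul (continuous_pow _)

/- TARGET -/
theorem domA (Q : Par) : IsOpen Q.GA ∧ Bornology.IsBounded Q.GA ∧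
    (∀ w ∈ closure Q.GA, w ≠ 0 ∧ 2 / 3 ≤ ‖1 - Q.E0 w‖ ∧ 2 / 3 ≤ ‖1 - Q.E1 w‖) ∧
    (∀ w ∈ frontier Q.GA, ‖w‖ = Q.rad (13 / 8) ∨ ‖w‖ = Q.rad (13 / 16) ∨ ‖1 - Q.E0 w‖ = 2 / 3 ∨
      ‖1 - Q.E1 w‖ = 2 / 3) ∧
    (∀ w : ℂ, ‖w‖ = Q.rad (9 / 8) → w ∈ Q.GA) := by
  obtain ⟨h1, h2, h3, h4⟩ := domain_gen Q.E0 (fun w => w ^ Q.N) (cont_E0 Q) (continuous_pow _)
    (Q.rad (13 / 8)) (Q.rad (13 / 16)) (Complex.exp (-1280)) Q.GA rfl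
  have hne : ∀ w ∈ closure Q.GA, w ≠ 0 := by
    intro w hw
    have := (h3 w hw).1
    have hp := rad_pos Q (13 / 8)
    rw [← norm_pos_iff]
    linarith
  refine ⟨h1, h2, ?_, ?_, ?_⟩
  · intro w hw
    obtain ⟨a1, a2, a3, a4⟩ := h3 w hw
    refine ⟨hne w hw, a3, ?_⟩
    rw [← E1_eq Q w (hne w hw)] at a4
    have hp : 0 < ‖w ^ Q.N‖ := norm_pos_iff.2 (pow_ne_zero _ (hne w hw))
    exact le_of_mul_le_mul_right a4 hp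
  · intro w hw
    have hw0 := hne w (frontier_subset_closure hw)
    rcases h4 w hw with a | a | a | a
    · exact Or.inl a
    · exact Or.inr (Or.inl a)
    · exact Or.inr (Or.inr (Or.inl a))
    · refine Or.inr (Or.inr (Or.inr ?_))
      rw [← E1_eq Q w hw0] at a
      have hp : ‖w ^ Q.N‖ ≠ 0 := norm_ne_zero_iff.2 (pow_ne_zero _ hw0)
      exact (mul_right_cancel₀ hp a).symm
  · intro w hw
    have hw0 : w ≠ 0 := by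
      rw [← norm_pos_iff, hw]
      exact rad_pos Q _
    obtain ⟨e0, e1, -⟩ := normE Q w (9 / 8) hw
    refine ⟨?_, ?_, ?_, ?_⟩
    · rw [hw]; exact rad_lt Q (by norm_num)
    · rw [hw]; exact rad_lt Q (by norm_num)
    · apply norm_one_sub_lb
      rw [e0, show (1024 - 1024 * (9 / 8) : ℝ) = -128 by norm_num]
      exact small128
    · rw [← E1_eq Q w hw0]
      have hp : 0 < ‖w ^ Q.N‖ := norm_pos_iff.2 (pow_ne_zero _ hw0)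
      refine mul_lt_mul_of_pos_right ?_ hp
      apply norm_one_sub_lb
      rw [e1, show (1024 * (9 / 8) - 1280 : ℝ) = -128 by norm_num]
      exact small128

/- TARGET -/
theorem domB (Q : Par) : IsOpen Q.GB ∧ Bornology.IsBounded Q.GB ∧
    (∀ v ∈ closure Q.GB, v ≠ 0 ∧ 2 / 3 ≤ ‖1 - Q.E0 v‖ ∧ 2 / 3 ≤ ‖1 - Q.E1 (v ^ 2)‖) ∧
    (∀ v ∈ frontier Q.GB, ‖v‖ = Q.rad (9 / 8) ∨ ‖v‖ = Q.rad (9 / 16) ∨ ‖1 - Q.E0 v‖ = 2 / 3 ∨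
      ‖1 - Q.E1 (v ^ 2)‖ = 2 / 3) ∧
    (∀ v : ℂ, ‖v‖ = Q.rad (13 / 16) → v ∈ Q.GB) := by
  obtain ⟨h1, h2, h3, h4⟩ := domain_gen Q.E0 (fun v => (v ^ 2) ^ Q.N) (cont_E0 Q)
    ((continuous_pow 2).pow _)
    (Q.rad (9 / 8)) (Q.rad (9 / 16)) (Complex.exp (-1280)) Q.GB rfl
  have hne : ∀ w ∈ closure Q.GB, w ≠ 0 := by
    intro w hw
    have := (h3 w hw).1
    have hp := rad_pos Q (9 / 8)
    rw [← norm_pos_iff]
    linarith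
  refine ⟨h1, h2, ?_, ?_, ?_⟩
  · intro w hw
    obtain ⟨a1, a2, a3, a4⟩ := h3 w hw
    refine ⟨hne w hw, a3, ?_⟩
    have hw2 : w ^ 2 ≠ 0 := pow_ne_zero _ (hne w hw)
    rw [← E1_eq Q (w ^ 2) hw2] at a4
    have hp : 0 < ‖(w ^ 2) ^ Q.N‖ := norm_pos_iff.2 (pow_ne_zero _ hw2)
    exact le_of_mul_le_mul_right a4 hp
  · intro w hw
    have hw0 := hne w (frontier_subset_closure hw)
    have hw2 : w ^ 2 ≠ 0 := pow_ne_zero _ hw0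
    rcases h4 w hw with a | a | a | a
    · exact Or.inl a
    · exact Or.inr (Or.inl a)
    · exact Or.inr (Or.inr (Or.inl a))
    · refine Or.inr (Or.inr (Or.inr ?_))
      rw [← E1_eq Q (w ^ 2) hw2] at a
      have hp : ‖(w ^ 2) ^ Q.N‖ ≠ 0 := norm_ne_zero_iff.2 (pow_ne_zero _ hw2)
      exact (mul_right_cancel₀ hp a).symm
  · intro w hw
    have hw0 : w ≠ 0 := by
      rw [← norm_pos_iff, hw]
      exact rad_pos Q _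
    have hw2 : w ^ 2 ≠ 0 := pow_ne_zero _ hw0
    obtain ⟨e0, -, e1⟩ := normE Q w (13 / 16) hw
    refine ⟨?_, ?_, ?_, ?_⟩
    · rw [hw]; exact rad_lt Q (by norm_num)
    · rw [hw]; exact rad_lt Q (by norm_num)
    · apply norm_one_sub_ub
      rw [e0, show (1024 - 1024 * (13 / 16) : ℝ) = 192 by norm_num]
      have := Real.add_one_le_exp (192:ℝ)
      linarith
    · rw [← E1_eq Q (w ^ 2) hw2]
      have hp : 0 < ‖(w ^ 2) ^ Q.N‖ := norm_pos_iff.2 (pow_ne_zero _ hw2)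
      refine mul_lt_mul_of_pos_right ?_ hp
      apply norm_one_sub_ub
      rw [e1, show (2048 * (13 / 16) - 1280 : ℝ) = 384 by norm_num]
      have := Real.add_one_le_exp (384:ℝ)
      linarith

end Pool.Agent.Helper536.KB.Kdo

namespace Pool.Agent.Helper536.KB

theorem domain_gen (f g : ℂ → ℂ) (hf : Continuous f) (hg : Continuous g) (r₁ r₂ : ℝ) (a : ℂ)
    (G : Set ℂ) (hG : G = {w | r₁ < ‖w‖ ∧ ‖w‖ < r₂ ∧ 2 / 3 < ‖1 - f w‖ ∧ 2 / 3 * ‖g w‖ < ‖g w - a‖}) :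
    IsOpen G ∧ Bornology.IsBounded G ∧
    (∀ w ∈ closure G, r₁ ≤ ‖w‖ ∧ ‖w‖ ≤ r₂ ∧ 2 / 3 ≤ ‖1 - f w‖ ∧ 2 / 3 * ‖g w‖ ≤ ‖g w - a‖) ∧
    (∀ w ∈ frontier G, ‖w‖ = r₁ ∨ ‖w‖ = r₂ ∨ ‖1 - f w‖ = 2 / 3 ∨ 2 / 3 * ‖g w‖ = ‖g w - a‖) := by
  first
    | exact Kdo.domain_gen
    | (apply Kdo.domain_gen <;> assumption)

theorem domA (Q : Par) : IsOpen Q.GA ∧ Bornology.IsBounded Q.GA ∧
    (∀ w ∈ closure Q.GA, w ≠ 0 ∧ 2 / 3 ≤ ‖1 - Q.E0 w‖ ∧ 2 / 3 ≤ ‖1 - Q.E1 w‖) ∧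
    (∀ w ∈ frontier Q.GA, ‖w‖ = Q.rad (13 / 8) ∨ ‖w‖ = Q.rad (13 / 16) ∨ ‖1 - Q.E0 w‖ = 2 / 3 ∨
      ‖1 - Q.E1 w‖ = 2 / 3) ∧
    (∀ w : ℂ, ‖w‖ = Q.rad (9 / 8) → w ∈ Q.GA) := by
  first
    | exact Kdo.domA
    | (apply Kdo.domA <;> assumption)

theorem domB (Q : Par) : IsOpen Q.GB ∧ Bornology.IsBounded Q.GB ∧
    (∀ v ∈ closure Q.GB, v ≠ 0 ∧ 2 / 3 ≤ ‖1 - Q.E0 v‖ ∧ 2 / 3 ≤ ‖1 - Q.E1 (v ^ 2)‖) ∧
    (∀ v ∈ frontier Q.GB, ‖v‖ = Q.rad (9 / 8) ∨ ‖v‖ = Q.rad (9 / 16) ∨ ‖1 - Q.E0 v‖ = 2 / 3 ∨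
      ‖1 - Q.E1 (v ^ 2)‖ = 2 / 3) ∧
    (∀ v : ℂ, ‖v‖ = Q.rad (13 / 16) → v ∈ Q.GB) := by
  first
    | exact Kdo.domB
    | (apply Kdo.domB <;> assumption)

end Pool.Agent.Helper536.KB
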