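import Pool.Agent.Helper536.Kb.Defs
import Pool.Agent.Helper536.Kb.Kal
import Pool.Agent.Helper536.Kb.Kdd
import Pool.Agent.Helper536.Kb.Kne
import Pool.Agent.Helper536.Kb.Knr
import Pool.Agent.Helper536.Kb.Kth

open Finset

namespace Pool.Agent.Helper536.KB.Kea

theorem aux_e0_nrm (Q : Par) : nrm (Q.e0) ≤ 1 := by
  rw [nrm_le_iff _ _ zero_le_one]
  have h : ∑ i : Fin ((Q.M + 4) + 1), ‖Q.e0 i‖ ^ 2 ≤ 1 ^ 2 := by
    rw [Fin.sum_univ_succ]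
    have h0 : Q.e0 (0 : Fin ((Q.M + 4) + 1)) = 1 := by
      simp [Par.e0]
    have hs : ∀ k : Fin (Q.M + 4), ‖Q.e0 (Fin.succ k)‖ ^ 2 = 0 := by
      intro k
      simp [Par.e0]
    rw [h0, Finset.sum_congr rfl (fun k _ => hs k)]
    simp
  exact h

theorem aux_rad_le (Q : Par) (y : ℝ) (hy : 0 ≤ y) : Q.rad y ≤ 1 := by
  unfold Par.rad
  rw [Real.exp_le_one_iff]
  have : 0 ≤ y / 2 ^ Q.M := by positivity
  linarith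

theorem aux_est (Q : Par) (w : ℂ) (hw : ‖w‖ ≤ 1) (a b g : ℂ) (A B G : ℝ) (c : Fin (Q.M + 5) → ℂ)
    (hc : nrm c ≤ 1) (ha : ‖a‖ ≤ A) (hb : ‖b‖ ≤ B) (hg : ‖g‖ ≤ G) (x : Fin (Q.M + 5) → ℂ)
    (hx : ∀ i, x i = a * ((Q.p 0 : ℂ) * w) * Q.e0 i + b * Q.DD w i + g * c i) :
    nrm x ≤ A + 2 * B + G := by
  have hx' : x = (fun i => (a * ((Q.p 0 : ℂ) * w)) * Q.e0 i) + (fun i => b * Q.DD w i)
      + (fun i => g * c i) := by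
    funext i
    simp only [Pi.add_apply]
    exact hx i
  have hA : 0 ≤ A := (norm_nonneg _).trans ha
  have hB : 0 ≤ B := (norm_nonneg _).trans hb
  have hG : 0 ≤ G := (norm_nonneg _).trans hg
  have h1 : nrm (fun i => (a * ((Q.p 0 : ℂ) * w)) * Q.e0 i) ≤ A := by
    rw [nrm_smul]
    have hp : ‖(Q.p 0 : ℂ)‖ ≤ 1 := by
      rw [Complex.norm_real, Real.norm_of_nonneg (Q.pnn 0)]
      exact Q.ple 0
    have h2 : ‖(Q.p 0 : ℂ) * w‖ ≤ 1 := by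
      rw [norm_mul]
      exact mul_le_one₀ hp (norm_nonneg _) hw
    have h3 : ‖a * ((Q.p 0 : ℂ) * w)‖ ≤ A := by
      rw [norm_mul]
      calc ‖a‖ * ‖(Q.p 0 : ℂ) * w‖ ≤ A * 1 := mul_le_mul ha h2 (norm_nonneg _) hA
        _ = A := mul_one A
    calc ‖a * ((Q.p 0 : ℂ) * w)‖ * nrm Q.e0 ≤ A * 1 :=
          mul_le_mul h3 (aux_e0_nrm Q) (nrm_nonneg _) hA
      _ = A := mul_one A
  have h4 : nrm (fun i => b * Q.DD w i) ≤ 2 * B := by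
    rw [nrm_smul]
    calc ‖b‖ * nrm (Q.DD w) ≤ B * 2 := mul_le_mul hb (dd_nrm Q w hw) (nrm_nonneg _) hB
      _ = 2 * B := mul_comm _ _
  have h5 : nrm (fun i => g * c i) ≤ G := by
    rw [nrm_smul]
    calc ‖g‖ * nrm c ≤ G * 1 := mul_le_mul hg hc (nrm_nonneg _) hG
      _ = G := mul_one G
  rw [hx']
  calc _ ≤ nrm ((fun i => (a * ((Q.p 0 : ℂ) * w)) * Q.e0 i) + (fun i => b * Q.DD w i))
        + nrm (fun i => g * c i) := nrm_add _ _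
    _ ≤ (nrm (fun i => (a * ((Q.p 0 : ℂ) * w)) * Q.e0 i) + nrm (fun i => b * Q.DD w i))
        + nrm (fun i => g * c i) := add_le_add_left (nrm_add _ _) _
    _ ≤ A + 2 * B + G := add_le_add (add_le_add h1 h4) h5

theorem aux_small {E : ℂ} {x : ℝ} (hE : ‖E‖ = Real.exp x) (hx : x ≤ -120) :
    ‖1 / (1 - E) - 1‖ ≤ 2 * (1 / 2 ^ 120 : ℝ) :=
  th_small E (1 / 2 ^ 120) (by norm_num) (hE ▸ exp_tiny x hx)

theorem aux_big {E : ℂ} {x : ℝ} (hE : ‖E‖ = Real.exp x) (hx : 120 ≤ x) :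
    ‖1 / (1 - E)‖ ≤ 2 * (1 / 2 ^ 120 : ℝ) := by
  refine th_big E (1 / 2 ^ 120) (by norm_num) (by norm_num) ?_
  rw [hE]
  have h := exp_tiny (-x) (by linarith)
  rw [Real.exp_neg] at h
  have hp := Real.exp_pos x
  rw [one_div_one_div]
  have h2 : (Real.exp x)⁻¹ * Real.exp x = 1 := inv_mul_cancel₀ hp.ne'
  have h3 : (Real.exp x)⁻¹ * Real.exp x ≤ 1 / 2 ^ 120 * Real.exp x :=
    mul_le_mul_of_nonneg_right h hp.le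
  have h4 : (0 : ℝ) < 2 ^ 120 := by positivity
  rw [h2, one_div, ← div_eq_inv_mul, le_div_iff₀ h4] at h3
  linarith

theorem aux_small_num : 2 * (1 / 2 ^ 120 : ℝ) + 2 * (2 * (1 / 2 ^ 120)) + 2 * (2 * (1 / 2 ^ 120))
    ≤ 1 / 2 ^ 40 := by norm_num

/- TARGET -/
theorem startA (Q : Par) (w : ℂ) (hw : ‖w‖ = Q.rad (9 / 8)) :
    nrm (Q.PsiA 0 w - Q.FA w) ≤ 1 / 2 ^ 40 ∧ ‖Q.gA w - 1‖ ≤ 1 / 4 := by
  obtain ⟨n0, n1, -⟩ := normE Q w (9 / 8) hw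
  have hw1 : ‖w‖ ≤ 1 := hw ▸ aux_rad_le Q _ (by norm_num)
  have hT : ‖Q.T0 w - 1‖ ≤ 2 * (1 / 2 ^ 120 : ℝ) := aux_small n0 (by norm_num)
  have hU : ‖Q.U1 w - 1‖ ≤ 2 * (1 / 2 ^ 120 : ℝ) := aux_small n1 (by norm_num)
  have hU' : ‖1 - Q.U1 w‖ ≤ 2 * (1 / 2 ^ 120 : ℝ) := by rwa [norm_sub_rev]
  have hn0 : nrm (0 : Fin (Q.M + 5) → ℂ) ≤ 1 := by
    rw [nrm_le_iff _ _ zero_le_one]
    simp
  constructor
  · refine (aux_est Q w hw1 (Q.T0 w - 1) (1 - Q.U1 w) 0 _ _ 0 0 hn0 hT hU' (by simp) _ ?_).trans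
      ?_
    · intro i
      rw [psiA0]
      obtain ⟨f1, f2, -⟩ := fa_eq Q w
      simp only [Pi.sub_apply, f2 i, Pi.zero_apply]
      ring
    · have := aux_small_num
      have h0 : (0 : ℝ) ≤ 2 * (2 * (1 / 2 ^ 120)) := by positivity
      linarith
  · have e : Q.gA w - 1 = (Q.T0 w - 1) + (Q.U1 w - 1) := by
      unfold Par.gA
      ring
    rw [e]
    refine (norm_add_le _ _).trans ((add_le_add hT hU).trans ?_)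
    norm_num

/- TARGET -/
theorem exitA1 (Q : Par) (c : Fin (Q.M + 5) → ℂ) (hc : nrm c ≤ 1 / 2 ^ 18) (w : ℂ)
    (hw : ‖w‖ = Q.rad (13 / 8)) : nrm (Q.PsiA c w - Q.FB w) ≤ 1 / 2 ^ 20 ∧ ‖Q.gA w‖ ≤ 1 / 4 := by
  obtain ⟨n0, n1, -⟩ := normE Q w (13 / 8) hw
  have hw1 : ‖w‖ ≤ 1 := hw ▸ aux_rad_le Q _ (by norm_num)
  have hT : ‖Q.T0 w - 1‖ ≤ 2 * (1 / 2 ^ 120 : ℝ) := aux_small n0 (by norm_num)
  have hU : ‖Q.U1 w‖ ≤ 2 * (1 / 2 ^ 120 : ℝ) := aux_big n1 (by norm_num)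
  have hU' : ‖-Q.U1 w‖ ≤ 2 * (1 / 2 ^ 120 : ℝ) := by rwa [norm_neg]
  have hc1 : nrm c ≤ 1 := hc.trans (by norm_num)
  have hg : ‖Q.gA w‖ ≤ 2 * (2 * (1 / 2 ^ 120 : ℝ)) := by
    have e : Q.gA w = (Q.T0 w - 1) + Q.U1 w := by
      unfold Par.gA
      ring
    rw [e]
    refine (norm_add_le _ _).trans ((add_le_add hT hU).trans ?_)
    linarith
  constructor
  · refine (aux_est Q w hw1 (Q.T0 w - 1) (-Q.U1 w) (Q.gA w) _ _ _ c hc1 hT hU' hg _ ?_).trans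
      (aux_small_num.trans (by norm_num))
    intro i
    rw [psiA0]
    simp only [Pi.sub_apply]
    ring
  · refine hg.trans ?_
    norm_num

/- TARGET -/
theorem exitA2 (Q : Par) (c : Fin (Q.M + 5) → ℂ) (hc : nrm c ≤ 1 / 2 ^ 18) (w : ℂ)
    (hw : ‖w‖ = Q.rad (13 / 16)) :
    nrm (Q.PsiA c w - rot 1 (Q.FB (w ^ 2))) ≤ 1 / 2 ^ 20 ∧ ‖Q.gA w‖ ≤ 1 / 4 := by
  obtain ⟨n0, n1, -⟩ := normE Q w (13 / 16) hw
  have hw1 : ‖w‖ ≤ 1 := hw ▸ aux_rad_le Q _ (by norm_num)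
  have hT : ‖Q.T0 w‖ ≤ 2 * (1 / 2 ^ 120 : ℝ) := aux_big n0 (by norm_num)
  have hU : ‖Q.U1 w - 1‖ ≤ 2 * (1 / 2 ^ 120 : ℝ) := aux_small n1 (by norm_num)
  have hU' : ‖1 - Q.U1 w‖ ≤ 2 * (1 / 2 ^ 120 : ℝ) := by rwa [norm_sub_rev]
  have hc1 : nrm c ≤ 1 := hc.trans (by norm_num)
  have hg : ‖Q.gA w‖ ≤ 2 * (2 * (1 / 2 ^ 120 : ℝ)) := by
    have e : Q.gA w = Q.T0 w + (Q.U1 w - 1) := by
      unfold Par.gA
      ring
    rw [e]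
    refine (norm_add_le _ _).trans ((add_le_add hT hU).trans ?_)
    linarith
  constructor
  · refine (aux_est Q w hw1 (Q.T0 w) (1 - Q.U1 w) (Q.gA w) _ _ _ c hc1 hT hU' hg _ ?_).trans
      (aux_small_num.trans (by norm_num))
    intro i
    obtain ⟨f1, f2, -⟩ := fa_eq Q w
    rw [psiA0, rot_FB]
    simp only [Pi.sub_apply, f2 i, f1 i]
    ring
  · refine hg.trans ?_
    norm_num

end Pool.Agent.Helper536.KB.Kea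

namespace Pool.Agent.Helper536.KB

theorem startA (Q : Par) (w : ℂ) (hw : ‖w‖ = Q.rad (9 / 8)) :
    nrm (Q.PsiA 0 w - Q.FA w) ≤ 1 / 2 ^ 40 ∧ ‖Q.gA w - 1‖ ≤ 1 / 4 := by
  first
    | exact Kea.startA
    | (apply Kea.startA <;> assumption)

theorem exitA1 (Q : Par) (c : Fin (Q.M + 5) → ℂ) (hc : nrm c ≤ 1 / 2 ^ 18) (w : ℂ)
    (hw : ‖w‖ = Q.rad (13 / 8)) : nrm (Q.PsiA c w - Q.FB w) ≤ 1 / 2 ^ 20 ∧ ‖Q.gA w‖ ≤ 1 / 4 := by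
  first
    | exact Kea.exitA1
    | (apply Kea.exitA1 <;> assumption)

theorem exitA2 (Q : Par) (c : Fin (Q.M + 5) → ℂ) (hc : nrm c ≤ 1 / 2 ^ 18) (w : ℂ)
    (hw : ‖w‖ = Q.rad (13 / 16)) :
    nrm (Q.PsiA c w - rot 1 (Q.FB (w ^ 2))) ≤ 1 / 2 ^ 20 ∧ ‖Q.gA w‖ ≤ 1 / 4 := by
  first
    | exact Kea.exitA2
    | (apply Kea.exitA2 <;> assumption)

end Pool.Agent.Helper536.KB
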