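import Pool.Agent.Helper536.Kb.Defs
import Pool.Agent.Helper536.Kb.Kth

open Finset

namespace Pool.Agent.Helper536.KB.Kro

theorem slotNcast (Q : Par) : ((Q.N : ℕ) : ℂ) = 1024 * 2 ^ Q.M := by
  unfold Par.N
  push_cast
  rw [pow_add]
  norm_num
  ring

theorem slotNcastR (Q : Par) : ((Q.N : ℕ) : ℝ) = 1024 * 2 ^ Q.M := by
  unfold Par.N
  push_cast
  rw [pow_add]
  norm_num
  ring

theorem slotRadC (Q : Par) (y : ℝ) : ((Q.rad y : ℝ) : ℂ) = Complex.exp (-((y : ℂ) / 2 ^ Q.M)) := by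
  unfold Par.rad
  rw [Complex.ofReal_exp]
  push_cast
  rfl

/- TARGET -/
theorem root0 (Q : Par) (w : ℂ) (hw : ‖1 - Q.E0 w‖ = 2 / 3) :
    ∃ ω ℓ : ℂ, ω ^ Q.N = 1 ∧ ‖ℓ‖ ≤ 57 / 50 ∧ w = ω * (Q.rad 1 : ℂ) * Complex.exp (ℓ / Q.N) := by
  obtain ⟨ℓ, h1, h2⟩ := exists_log _ hw
  have h2M : (2 : ℂ) ^ Q.M ≠ 0 := pow_ne_zero _ two_ne_zero
  have hN0 : ((Q.N : ℕ) : ℂ) ≠ 0 := by
    rw [slotNcast]
    exact mul_ne_zero (by norm_num) h2M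
  refine ⟨w * Complex.exp ((1024 - ℓ) / Q.N), ℓ, ?_, h2, ?_⟩
  · rw [mul_pow, ← Complex.exp_nat_mul, mul_div_cancel₀ _ hN0]
    have e1 : Complex.exp (1024 - ℓ) = Complex.exp 1024 * Complex.exp (-ℓ) := by
      rw [← Complex.exp_add]; ring_nf
    rw [e1, ← mul_assoc, mul_comm (w ^ Q.N)]
    have e2 : Complex.exp 1024 * w ^ Q.N = Complex.exp ℓ := by rw [h1]; rfl
    rw [e2, ← Complex.exp_add, add_neg_cancel, Complex.exp_zero]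
  · rw [slotRadC, mul_assoc, mul_assoc, ← Complex.exp_add, ← Complex.exp_add]
    have e : (1024 - ℓ) / (Q.N : ℂ) + (-(((1 : ℝ) : ℂ) / 2 ^ Q.M) + ℓ / (Q.N : ℂ)) = 0 := by
      rw [slotNcast]
      push_cast
      field_simp
      ring
    rw [e, Complex.exp_zero, mul_one]

/- TARGET -/
theorem root1 (Q : Par) (w : ℂ) (hw0 : w ≠ 0) (hw : ‖1 - Q.E1 w‖ = 2 / 3) :
    ∃ ω ℓ : ℂ, ω ^ Q.N = 1 ∧ ‖ℓ‖ ≤ 57 / 50 ∧ w = ω * (Q.rad (5 / 4) : ℂ) * Complex.exp (ℓ / Q.N) := by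
  obtain ⟨ℓ, h1, h2⟩ := exists_log _ hw
  have h2M : (2 : ℂ) ^ Q.M ≠ 0 := pow_ne_zero _ two_ne_zero
  have hN0 : ((Q.N : ℕ) : ℂ) ≠ 0 := by
    rw [slotNcast]
    exact mul_ne_zero (by norm_num) h2M
  have hwN : w ^ Q.N ≠ 0 := pow_ne_zero _ hw0
  refine ⟨w * Complex.exp ((1280 + ℓ) / Q.N), -ℓ, ?_, by rwa [norm_neg], ?_⟩
  · rw [mul_pow, ← Complex.exp_nat_mul, mul_div_cancel₀ _ hN0, Complex.exp_add, h1]
    unfold Par.E1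
    rw [Complex.exp_neg]
    have h3 : Complex.exp 1280 ≠ 0 := Complex.exp_ne_zero _
    field_simp
  · rw [slotRadC, mul_assoc, mul_assoc, ← Complex.exp_add, ← Complex.exp_add]
    have e : (1280 + ℓ) / (Q.N : ℂ) + (-(((5 / 4 : ℝ) : ℂ) / 2 ^ Q.M) + -ℓ / (Q.N : ℂ)) = 0 := by
      rw [slotNcast]
      push_cast
      field_simp
      ring
    rw [e, Complex.exp_zero, mul_one]

/- TARGET -/
theorem slot (Q : Par) (y : ℝ) (hy : 0 ≤ y) (ω ℓ : ℂ) (hω : ‖ω‖ = 1) (hℓ : ‖ℓ‖ ≤ 57 / 50) (i : ℕ)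
    (hi : i < Q.M + 5) :
    ‖(ω * (Q.rad y : ℂ) * Complex.exp (ℓ / Q.N)) ^ (2 ^ i) - (ω * (Q.rad y : ℂ)) ^ (2 ^ i)‖
      ≤ (57 / 51200) * ((2 : ℝ) ^ i / 2 ^ Q.M) * Real.exp (-(((2 : ℝ) ^ i / 2 ^ Q.M) * (y - 1 / 800))) := by
  obtain ⟨s, hs⟩ : ∃ s : ℝ, s = (2 : ℝ) ^ i / 2 ^ Q.M := ⟨_, rfl⟩
  have hs0 : 0 < s := by rw [hs]; positivity
  obtain ⟨z, hz⟩ : ∃ z : ℂ, z = ((2 ^ i : ℕ) : ℂ) * (ℓ / Q.N) := ⟨_, rfl⟩
  have e1 : (ω * (Q.rad y : ℂ) * Complex.exp (ℓ / Q.N)) ^ (2 ^ i) - (ω * (Q.rad y : ℂ)) ^ (2 ^ i) =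
      (ω * (Q.rad y : ℂ)) ^ (2 ^ i) * (Complex.exp z - 1) := by
    rw [mul_pow, ← Complex.exp_nat_mul, hz]
    ring
  have e2 : ‖(ω * (Q.rad y : ℂ)) ^ (2 ^ i)‖ = Real.exp (-(s * y)) := by
    rw [norm_pow, norm_mul, hω, one_mul, Complex.norm_real, Real.norm_eq_abs]
    unfold Par.rad
    rw [abs_of_pos (Real.exp_pos _), ← Real.exp_nat_mul, hs]
    congr 1
    push_cast
    ring
  have e3 : ‖z‖ ≤ s * (57 / 51200) := by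
    rw [hz, norm_mul, norm_div, Complex.norm_natCast, Complex.norm_natCast, slotNcastR, hs]
    push_cast
    have h1 : (2 : ℝ) ^ i * (‖ℓ‖ / (1024 * 2 ^ Q.M)) = (2 ^ i / 2 ^ Q.M) * (‖ℓ‖ / 1024) := by
      field_simp
    rw [h1]
    apply mul_le_mul_of_nonneg_left _ (by positivity)
    linarith
  have e4 : ‖Complex.exp z - 1‖ ≤ ‖z‖ * Real.exp ‖z‖ := by
    have := Complex.norm_exp_sub_sum_le_norm_mul_exp z 1
    simpa using this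
  rw [← hs, e1, norm_mul, e2]
  calc Real.exp (-(s * y)) * ‖Complex.exp z - 1‖
      ≤ Real.exp (-(s * y)) * (‖z‖ * Real.exp ‖z‖) :=
        mul_le_mul_of_nonneg_left e4 (Real.exp_pos _).le
    _ ≤ Real.exp (-(s * y)) * ((s * (57 / 51200)) * Real.exp (s / 800)) := by
        apply mul_le_mul_of_nonneg_left _ (Real.exp_pos _).le
        apply mul_le_mul e3 _ (Real.exp_pos _).le (by positivity)
        apply Real.exp_le_exp.2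
        linarith
    _ = 57 / 51200 * s * (Real.exp (-(s * y)) * Real.exp (s / 800)) := by ring
    _ = 57 / 51200 * s * Real.exp (-(s * (y - 1 / 800))) := by
        rw [← Real.exp_add]
        congr 2
        ring

/- TARGET -/
theorem slot_rad (Q : Par) (y : ℝ) (ω ℓ : ℂ) (hω : ‖ω‖ = 1) (hℓ : ‖ℓ‖ ≤ 57 / 50) :
    ‖ω * (Q.rad y : ℂ) * Complex.exp (ℓ / Q.N)‖ ≤ Q.rad (y - 1 / 800) := by
  have h2M : (0 : ℝ) < 2 ^ Q.M := by positivity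
  rw [norm_mul, norm_mul, hω, one_mul, Complex.norm_real, Real.norm_eq_abs, Complex.norm_exp]
  unfold Par.rad
  rw [abs_of_pos (Real.exp_pos _), ← Real.exp_add]
  apply Real.exp_le_exp.2
  have h1 : (ℓ / (Q.N : ℂ)).re ≤ (57 / 50) / (1024 * 2 ^ Q.M) := by
    calc (ℓ / (Q.N : ℂ)).re ≤ ‖ℓ / (Q.N : ℂ)‖ := Complex.re_le_norm _
      _ = ‖ℓ‖ / (1024 * 2 ^ Q.M) := by rw [norm_div, Complex.norm_natCast, slotNcastR]
      _ ≤ (57 / 50) / (1024 * 2 ^ Q.M) := div_le_div_of_nonneg_right hℓ (by positivity)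
  have h2 : (57 / 50 : ℝ) / (1024 * 2 ^ Q.M) ≤ (1 / 800) / 2 ^ Q.M := by
    rw [div_le_div_iff₀ (by positivity) h2M]
    nlinarith
  have h3 : -((y - 1 / 800) / 2 ^ Q.M) = -(y / 2 ^ Q.M) + (1 / 800) / 2 ^ Q.M := by ring
  rw [h3]
  linarith

end Pool.Agent.Helper536.KB.Kro

namespace Pool.Agent.Helper536.KB

theorem root0 (Q : Par) (w : ℂ) (hw : ‖1 - Q.E0 w‖ = 2 / 3) :
    ∃ ω ℓ : ℂ, ω ^ Q.N = 1 ∧ ‖ℓ‖ ≤ 57 / 50 ∧ w = ω * (Q.rad 1 : ℂ) * Complex.exp (ℓ / Q.N) := by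
  first
    | exact Kro.root0
    | (apply Kro.root0 <;> assumption)

theorem root1 (Q : Par) (w : ℂ) (hw0 : w ≠ 0) (hw : ‖1 - Q.E1 w‖ = 2 / 3) :
    ∃ ω ℓ : ℂ, ω ^ Q.N = 1 ∧ ‖ℓ‖ ≤ 57 / 50 ∧ w = ω * (Q.rad (5 / 4) : ℂ) * Complex.exp (ℓ / Q.N) := by
  first
    | exact Kro.root1
    | (apply Kro.root1 <;> assumption)

theorem slot (Q : Par) (y : ℝ) (hy : 0 ≤ y) (ω ℓ : ℂ) (hω : ‖ω‖ = 1) (hℓ : ‖ℓ‖ ≤ 57 / 50) (i : ℕ)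
    (hi : i < Q.M + 5) :
    ‖(ω * (Q.rad y : ℂ) * Complex.exp (ℓ / Q.N)) ^ (2 ^ i) - (ω * (Q.rad y : ℂ)) ^ (2 ^ i)‖
      ≤ (57 / 51200) * ((2 : ℝ) ^ i / 2 ^ Q.M) * Real.exp (-(((2 : ℝ) ^ i / 2 ^ Q.M) * (y - 1 / 800))) := by
  first
    | exact Kro.slot
    | (apply Kro.slot <;> assumption)

theorem slot_rad (Q : Par) (y : ℝ) (ω ℓ : ℂ) (hω : ‖ω‖ = 1) (hℓ : ‖ℓ‖ ≤ 57 / 50) :
    ‖ω * (Q.rad y : ℂ) * Complex.exp (ℓ / Q.N)‖ ≤ Q.rad (y - 1 / 800) := by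
  first
    | exact Kro.slot_rad
    | (apply Kro.slot_rad <;> assumption)

end Pool.Agent.Helper536.KB
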