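import Pool.Agent.Helper536.Kb.Defs

open Finset

namespace Pool.Agent.Helper536.KB.Ksu

theorem sum_aux (m : ℕ) (y : ℝ) (hy : 0 ≤ y) (X : ℝ) (hX : Real.exp (-(y / 4)) ≤ X) :
    ∑ i ∈ range (m + 8), ((2 : ℝ) ^ i / 2 ^ (m + 3)) ^ 2 *
      Real.exp (-(2 * ((2 : ℝ) ^ i / 2 ^ (m + 3)) * y))
      ≤ 1 / 192 + 1 / 64 * X ^ 1 + 1 / 16 * X ^ 2 + 1 / 4 * X ^ 4 + 1 * X ^ 8 + 4 * X ^ 16
        + 16 * X ^ 32 + 64 * X ^ 64 + 256 * X ^ 128 := by
  have hs : ∀ k : ℕ, (2 : ℝ) ^ (m + k) / 2 ^ (m + 3) = 2 ^ k / 8 := by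
    intro k
    rw [pow_add, pow_add, mul_div_mul_left _ _ (by positivity)]
    norm_num
  have h0 : ∑ i ∈ range m, ((2 : ℝ) ^ i / 2 ^ (m + 3)) ^ 2 *
      Real.exp (-(2 * ((2 : ℝ) ^ i / 2 ^ (m + 3)) * y)) ≤ 1 / 192 := by
    calc ∑ i ∈ range m, ((2 : ℝ) ^ i / 2 ^ (m + 3)) ^ 2 *
          Real.exp (-(2 * ((2 : ℝ) ^ i / 2 ^ (m + 3)) * y))
        ≤ ∑ i ∈ range m, (4 : ℝ) ^ i * (1 / (64 * 4 ^ m)) := by
          apply Finset.sum_le_sum
          intro i _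
          have h1 : Real.exp (-(2 * ((2 : ℝ) ^ i / 2 ^ (m + 3)) * y)) ≤ 1 := by
            apply Real.exp_le_one_iff.mpr
            have : 0 ≤ 2 * ((2 : ℝ) ^ i / 2 ^ (m + 3)) * y := by positivity
            linarith
          calc _ ≤ ((2 : ℝ) ^ i / 2 ^ (m + 3)) ^ 2 * 1 :=
                mul_le_mul_of_nonneg_left h1 (by positivity)
            _ = (4 : ℝ) ^ i * (1 / (64 * 4 ^ m)) := by
                rw [mul_one, div_pow, ← pow_mul, ← pow_mul, mul_comm i 2, mul_comm (m + 3) 2,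
                  pow_mul, pow_mul, pow_add]
                norm_num
                field_simp
      _ = ((4 : ℝ) ^ m - 1) / 3 * (1 / (64 * 4 ^ m)) := by
          rw [← Finset.sum_mul, geom_sum_eq (by norm_num)]
          norm_num
      _ ≤ 1 / 192 := by
          have h4 : (0 : ℝ) < 4 ^ m := by positivity
          rw [div_mul_div_comm, div_le_div_iff₀ (by positivity) (by norm_num)]
          nlinarith
  have hk : ∀ k : ℕ, ((2 : ℝ) ^ (m + k) / 2 ^ (m + 3)) ^ 2 *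
      Real.exp (-(2 * ((2 : ℝ) ^ (m + k) / 2 ^ (m + 3)) * y)) ≤
      (2 ^ k / 8) ^ 2 * X ^ (2 ^ k) := by
    intro k
    rw [hs k]
    have h1 : Real.exp (-(2 * ((2 : ℝ) ^ k / 8) * y)) = Real.exp (-(y / 4)) ^ (2 ^ k) := by
      rw [← Real.exp_nat_mul]
      congr 1
      push_cast
      ring
    rw [h1]
    exact mul_le_mul_of_nonneg_left (pow_le_pow_left₀ (Real.exp_pos _).le hX _) (by positivity)
  have e : m + 8 = m + 1 + 1 + 1 + 1 + 1 + 1 + 1 + 1 := by ring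
  rw [e]
  simp only [Finset.sum_range_succ]
  have k0 := hk 0
  have k1 := hk 1
  have k2 := hk 2
  have k3 := hk 3
  have k4 := hk 4
  have k5 := hk 5
  have k6 := hk 6
  have k7 := hk 7
  norm_num [add_assoc] at k0 k1 k2 k3 k4 k5 k6 k7 h0 ⊢
  linarith

/- TARGET -/
theorem sumA (M : ℕ) (hM : 12 ≤ M) :
    ∑ i ∈ range (M + 5), ((2 : ℝ) ^ i / 2 ^ M) ^ 2 * Real.exp (-(2 * ((2 : ℝ) ^ i / 2 ^ M) * (99 / 100)))
      ≤ 2 / 5 := by
  obtain ⟨m, rfl⟩ : ∃ m, M = m + 3 := ⟨M - 3, by omega⟩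
  have hX : Real.exp (-((99 / 100 : ℝ) / 4)) ≤ 7825 / 10000 := by
    rw [Real.exp_neg]
    have h := Real.quadratic_le_exp_of_nonneg (x := (99 / 100 : ℝ) / 4) (by norm_num)
    rw [inv_le_comm₀ (Real.exp_pos _) (by norm_num)]
    refine le_trans ?_ h
    norm_num
  refine le_trans (sum_aux m (99 / 100) (by norm_num) _ hX) ?_
  norm_num

/- TARGET -/
theorem sumB (M : ℕ) (hM : 12 ≤ M) :
    ∑ i ∈ range (M + 5), ((2 : ℝ) ^ i / 2 ^ M) ^ 2 * Real.exp (-(2 * ((2 : ℝ) ^ i / 2 ^ M) * (123 / 100)))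
      ≤ 1 / 4 := by
  obtain ⟨m, rfl⟩ : ∃ m, M = m + 3 := ⟨M - 3, by omega⟩
  have hX : Real.exp (-((123 / 100 : ℝ) / 4)) ≤ 7382 / 10000 := by
    rw [Real.exp_neg]
    have h := Real.quadratic_le_exp_of_nonneg (x := (123 / 100 : ℝ) / 4) (by norm_num)
    rw [inv_le_comm₀ (Real.exp_pos _) (by norm_num)]
    refine le_trans ?_ h
    norm_num
  refine le_trans (sum_aux m (123 / 100) (by norm_num) _ hX) ?_
  norm_num

end Pool.Agent.Helper536.KB.Ksu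

namespace Pool.Agent.Helper536.KB

theorem sumA (M : ℕ) (hM : 12 ≤ M) :
    ∑ i ∈ range (M + 5), ((2 : ℝ) ^ i / 2 ^ M) ^ 2 * Real.exp (-(2 * ((2 : ℝ) ^ i / 2 ^ M) * (99 / 100)))
      ≤ 2 / 5 := by
  first
    | exact Ksu.sumA
    | (apply Ksu.sumA <;> assumption)

theorem sumB (M : ℕ) (hM : 12 ≤ M) :
    ∑ i ∈ range (M + 5), ((2 : ℝ) ^ i / 2 ^ M) ^ 2 * Real.exp (-(2 * ((2 : ℝ) ^ i / 2 ^ M) * (123 / 100)))
      ≤ 1 / 4 := by
  first
    | exact Ksu.sumB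
    | (apply Ksu.sumB <;> assumption)

end Pool.Agent.Helper536.KB
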