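import Pool.Agent.Helper536.Kb.Defs
import Pool.Agent.Helper536.Kb.Kdd
import Pool.Agent.Helper536.Kb.Knr
import Pool.Agent.Helper536.Kb.Kro
import Pool.Agent.Helper536.Kb.Ksu
import Pool.Agent.Helper536.Kb.Kth

open Finset

namespace Pool.Agent.Helper536.KB.Kh1

theorem hole1_sq_aux (a b : ℂ) : ‖a - b‖ ^ 2 ≤ (101 / 100) * ‖a‖ ^ 2 + 101 * ‖b‖ ^ 2 := by
  have h1 := norm_sub_le a b
  have h2 := norm_nonneg (a - b)
  have h3 := norm_nonneg a
  have h4 := norm_nonneg b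
  have h5 : ‖a - b‖ ^ 2 ≤ (‖a‖ + ‖b‖) ^ 2 := pow_le_pow_left₀ h2 h1 2
  nlinarith [sq_nonneg (‖a‖ - 100 * ‖b‖)]

/- TARGET -/
theorem hole1 (Q : Par) (w : ℂ) (hw0 : w ≠ 0) (hw : ‖1 - Q.E1 w‖ = 2 / 3) :
    ∃ ω : ℂ, ω ^ Q.N = 1 ∧ nrm (Q.R1 w - Q.C1 ω) ≤ 61 / 51200 := by
  obtain ⟨ω, l, hωN, hl, hwl⟩ := root1 Q w hw0 hw
  have hN0 : Q.N ≠ 0 := by
    unfold Par.N
    positivity
  have hω : ‖ω‖ = 1 := by
    have h1 : ‖ω‖ ^ Q.N = 1 := by rw [← norm_pow, hωN, norm_one]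
    exact (pow_eq_one_iff_of_nonneg (norm_nonneg _) hN0).1 h1
  have hU : ‖Q.U1 w‖ = 3 / 2 := (th_hole (Q.E1 w) hw).1
  have h2M : (0 : ℝ) < 2 ^ Q.M := by positivity
  have hM13 : 13 ≤ Q.M := by
    have := Q.hJ
    have := Q.hM
    omega
  have h2M' : (4096 : ℝ) ≤ 2 ^ Q.M := by
    have h1 : (2 : ℝ) ^ 12 ≤ 2 ^ Q.M := pow_le_pow_right₀ (by norm_num) (by omega)
    linarith
  have hwn1 : ‖w‖ ≤ Q.rad (5 / 4 - 1 / 800) := by
    rw [hwl]
    exact slot_rad Q (5 / 4) ω l hω hl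
  have hwn : ‖w‖ ≤ Q.rad (6 / 5) := by
    refine hwn1.trans ?_
    unfold Par.rad
    rw [Real.exp_le_exp, neg_le_neg_iff]
    exact div_le_div_of_nonneg_right (by norm_num) h2M.le
  have hw1 : ‖w‖ ≤ 1 := by
    refine hwn.trans ?_
    unfold Par.rad
    rw [Real.exp_le_one_iff, neg_nonpos]
    positivity
  refine ⟨ω, hωN, ?_⟩
  rw [nrm_le_iff _ _ (by norm_num)]
  -- the two parts
  obtain ⟨a, ha⟩ : ∃ a : Fin (Q.M + 5) → ℂ, a = fun i : Fin (Q.M + 5) => (Q.p ((i : ℕ) + 1) : ℂ) *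
      (w ^ (2 ^ (i : ℕ)) - (ω * (Q.rad (5 / 4) : ℂ)) ^ (2 ^ (i : ℕ))) := ⟨_, rfl⟩
  have hslot : ∀ i, (Q.R1 w - Q.C1 ω) i = a i - Q.U1 w * Q.DD w i := by
    intro i
    rw [ha]
    simp only [Pi.sub_apply, Par.R1, Par.C1, Par.FB]
    ring
  obtain ⟨s, hs⟩ : ∃ s : ℕ → ℝ, s = fun i => (2 : ℝ) ^ i / 2 ^ Q.M := ⟨_, rfl⟩
  have hs0 : ∀ i, 0 ≤ s i := by
    intro i
    rw [hs]
    positivity
  have hp : ∀ i : Fin (Q.M + 5), ‖(Q.p ((i : ℕ) + 1) : ℂ)‖ ≤ 1 := by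
    intro i
    rw [Complex.norm_real, Real.norm_eq_abs, abs_of_nonneg (Q.pnn _)]
    exact Q.ple _
  have hab : ∀ i : Fin (Q.M + 5), ‖a i‖ ≤ (57 / 51200) * s i *
      Real.exp (-(s i * (5 / 4 - 1 / 800))) := by
    intro i
    have h1 := slot Q (5 / 4) (by norm_num) ω l hω hl i i.2
    rw [← hwl] at h1
    have h2 : ‖a i‖ = ‖(Q.p ((i : ℕ) + 1) : ℂ)‖ *
      ‖w ^ (2 ^ (i : ℕ)) - (ω * (Q.rad (5 / 4) : ℂ)) ^ (2 ^ (i : ℕ))‖ := by
      rw [ha, norm_mul]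
    rw [h2, hs]
    have h3 := mul_le_mul (hp i) h1 (norm_nonneg _) zero_le_one
    rw [one_mul] at h3
    exact h3
  have hasq : ∀ i : Fin (Q.M + 5), ‖a i‖ ^ 2 ≤ (57 / 51200) ^ 2 * ((s i) ^ 2 *
      Real.exp (-(2 * s i * (123 / 100)))) := by
    intro i
    have h1 := pow_le_pow_left₀ (norm_nonneg _) (hab i) 2
    refine h1.trans ?_
    have h2 : Real.exp (-(s i * (5 / 4 - 1 / 800))) ^ 2
        = Real.exp (-(2 * s i * (5 / 4 - 1 / 800))) := by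
      rw [← Real.exp_nat_mul]
      congr 1
      push_cast
      ring
    rw [mul_pow, mul_pow, h2, mul_assoc]
    refine mul_le_mul_of_nonneg_left ?_ (by positivity)
    refine mul_le_mul_of_nonneg_left ?_ (by positivity)
    rw [Real.exp_le_exp]
    have := hs0 i
    nlinarith
  obtain ⟨c0, hc0⟩ : ∃ c0 : ℝ, c0 = (21 / 20480 + 57 / 51200 / 4096) ^ 2 := ⟨_, rfl⟩
  have hc0' : 0 ≤ c0 := by rw [hc0]; positivity
  have hterm : ∀ i : Fin (Q.M + 5), ‖(Q.R1 w - Q.C1 ω) i‖ ^ 2 ≤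
      (if (i : ℕ) = 0 then c0 else 0) + ((101 / 100) * ((57 / 51200) ^ 2) * ((s i) ^ 2 *
        Real.exp (-(2 * s i * (123 / 100)))) +
        (909 / 4) * (if (i : ℕ) = 0 then (0 : ℝ) else ‖Q.DD w i‖ ^ 2)) := by
    intro i
    rw [hslot]
    by_cases hi : (i : ℕ) = 0
    · rw [if_pos hi, if_pos hi]
      have h1 : ‖a i‖ ≤ 57 / 51200 / 4096 := by
        refine (hab i).trans ?_
        have h2 : s i ≤ 1 / 4096 := by
          rw [hs]
          simp only [hi, pow_zero]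
          exact div_le_div_of_nonneg_left zero_le_one (by norm_num) h2M'
        have h3 : Real.exp (-(s i * (5 / 4 - 1 / 800))) ≤ 1 := by
          rw [Real.exp_le_one_iff, neg_nonpos]
          have := hs0 i
          nlinarith
        have h4 := hs0 i
        have h5 := Real.exp_pos (-(s i * (5 / 4 - 1 / 800)))
        calc (57 / 51200) * s i * Real.exp (-(s i * (5 / 4 - 1 / 800)))
            ≤ (57 / 51200) * s i * 1 := mul_le_mul_of_nonneg_left h3 (by positivity)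
          _ ≤ 57 / 51200 / 4096 := by linarith
      have h2 : ‖Q.U1 w * Q.DD w i‖ ≤ 21 / 20480 := by
        have h3 : ‖Q.DD w i‖ ≤ 7 / 10240 := by
          have h4 : Q.DD w i = ((Q.p 1 - Q.p 0 : ℝ) : ℂ) * w := by
            simp only [Par.DD, hi, zero_add, pow_zero, pow_one]
          rw [h4, Q.p0, Q.p1, norm_mul, Complex.norm_real, Real.norm_eq_abs,
            abs_of_nonneg (by norm_num)]
          have h5 := norm_nonneg w
          linarith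
        rw [norm_mul, hU]
        linarith
      have h3 := norm_sub_le (a i) (Q.U1 w * Q.DD w i)
      have h4 : ‖a i - Q.U1 w * Q.DD w i‖ ≤ 21 / 20480 + 57 / 51200 / 4096 := by linarith
      have h5 := pow_le_pow_left₀ (norm_nonneg _) h4 2
      rw [← hc0] at h5
      have h6 : 0 ≤ (101 / 100 : ℝ) * ((57 / 51200) ^ 2) * ((s i) ^ 2 *
        Real.exp (-(2 * s i * (123 / 100)))) := by positivity
      linarith
    · rw [if_neg hi, if_neg hi]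
      have h1 := hole1_sq_aux (a i) (Q.U1 w * Q.DD w i)
      have h2 := hasq i
      have h3 : ‖Q.U1 w * Q.DD w i‖ ^ 2 = 9 / 4 * ‖Q.DD w i‖ ^ 2 := by
        rw [norm_mul, hU]
        ring
      rw [h3] at h1
      linarith
  refine (Finset.sum_le_sum (fun i _ => hterm i)).trans ?_
  rw [Finset.sum_add_distrib, Finset.sum_add_distrib, ← Finset.mul_sum, ← Finset.mul_sum]
  have hA : ∑ i : Fin (Q.M + 5), (if (i : ℕ) = 0 then c0 else 0) = c0 := by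
    rw [Fin.sum_univ_succ]
    simp
  have hB : ∑ i : Fin (Q.M + 5), ((s i) ^ 2 * Real.exp (-(2 * s i * (123 / 100)))) ≤ 1 / 4 := by
    rw [Fin.sum_univ_eq_sum_range (fun i => (s i) ^ 2 * Real.exp (-(2 * s i * (123 / 100)))), hs]
    exact sumB Q.M (by omega)
  have hC := dd_tail Q w hwn
  rw [hA, hc0]
  have hB' := mul_le_mul_of_nonneg_left hB (by norm_num : (0 : ℝ) ≤ (101 / 100) * ((57 / 51200) ^ 2))
  have hC' := mul_le_mul_of_nonneg_left hC (by norm_num : (0 : ℝ) ≤ 909 / 4)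
  have hnum : ((21 : ℝ) / 20480 + 57 / 51200 / 4096) ^ 2 + ((101 / 100) * ((57 / 51200) ^ 2) * (1 / 4)
    + 909 / 4 * (1 / 2 ^ 38)) ≤ (61 / 51200) ^ 2 := by norm_num
  linarith

end Pool.Agent.Helper536.KB.Kh1

namespace Pool.Agent.Helper536.KB

theorem hole1 (Q : Par) (w : ℂ) (hw0 : w ≠ 0) (hw : ‖1 - Q.E1 w‖ = 2 / 3) :
    ∃ ω : ℂ, ω ^ Q.N = 1 ∧ nrm (Q.R1 w - Q.C1 ω) ≤ 61 / 51200 := by
  first
    | exact Kh1.hole1
    | (apply Kh1.hole1 <;> assumption)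

end Pool.Agent.Helper536.KB
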