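import Pool.Agent.Helper536.Kb.Defs
import Pool.Agent.Helper536.Kb.Kal
import Pool.Agent.Helper536.Kb.Kdd
import Pool.Agent.Helper536.Kb.Kh0
import Pool.Agent.Helper536.Kb.Kh1
import Pool.Agent.Helper536.Kb.Kne
import Pool.Agent.Helper536.Kb.Knr
import Pool.Agent.Helper536.Kb.Kth

open Finset

namespace Pool.Agent.Helper536.KB.Kha

theorem aux_exp256 : Real.exp (-256) ≤ 1 / 3 * (1 / 2 ^ 120) := by
  have h1 := exp_tiny (-128) (by norm_num)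
  have h0 : 0 ≤ Real.exp (-128) := (Real.exp_pos _).le
  have h2 : Real.exp (-256) = Real.exp (-128) * Real.exp (-128) := by
    rw [← Real.exp_add]; norm_num
  rw [h2]
  calc Real.exp (-128) * Real.exp (-128) ≤ (1 / 2 ^ 120) * (1 / 2 ^ 120) :=
        mul_le_mul h1 h1 h0 (by positivity)
    _ ≤ 1 / 3 * (1 / 2 ^ 120) := by norm_num

theorem aux_norm_le_one (Q : Par) (w : ℂ) (h : ‖w‖ ^ Q.N ≤ 1) : ‖w‖ ≤ 1 := by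
  by_contra hlt
  push Not at hlt
  have hN : Q.N ≠ 0 := by unfold Par.N; positivity
  have := one_lt_pow₀ hlt hN
  linarith

theorem aux_small_left (a b : ℝ) (ha : 1 / 3 ≤ a) (hb : 0 ≤ b) (h : a * b = Real.exp (-256)) :
    b ≤ 1 / 2 ^ 120 := by
  have h1 := aux_exp256
  have h2 : 1 / 3 * b ≤ a * b := mul_le_mul_of_nonneg_right ha hb
  rw [h] at h2
  linarith

theorem aux_rot0 {n : ℕ} [NeZero n] (x : Fin n → ℂ) : rot 0 x = x := by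
  funext i
  simp [rot]

theorem aux_gA (t u : ℂ) (ht : ‖t‖ = 3 / 2) (hu : ‖u - 1‖ ≤ 2 * (1 / 2 ^ 120)) :
    ‖t + u - 1‖ ≤ 2 := by
  have h : t + u - 1 = t + (u - 1) := by ring
  rw [h]
  refine (norm_add_le _ _).trans ?_
  rw [ht]
  have : (3 : ℝ) / 2 + 2 * (1 / 2 ^ 120) ≤ 2 := by norm_num
  linarith

/- TARGET -/
theorem holeA0 (Q : Par) (c : Fin (Q.M + 5) → ℂ) (hc : nrm c ≤ 1 / 2 ^ 18) (w : ℂ)
    (hw0 : w ≠ 0) (hw : ‖1 - Q.E0 w‖ = 2 / 3) : Q.InX (Q.PsiA c w) ∧ ‖Q.gA w‖ ≤ 3 := by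
  obtain ⟨hT, hE1, hE2⟩ := th_hole (Q.E0 w) hw
  have hT' : ‖Q.T0 w‖ = 3 / 2 := hT
  obtain ⟨hp, _⟩ := prodE Q w hw0
  have hsmall : ‖Q.E1 w‖ ≤ 1 / 2 ^ 120 := aux_small_left _ _ hE1 (norm_nonneg _) hp
  have hU : ‖Q.U1 w - 1‖ ≤ 2 * (1 / 2 ^ 120) := th_small (Q.E1 w) (1 / 2 ^ 120) (by norm_num) hsmall
  have hw1 : ‖w‖ ≤ 1 := by
    apply aux_norm_le_one Q
    have h1 : ‖Q.E0 w‖ = Real.exp 1024 * ‖w‖ ^ Q.N := by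
      unfold Par.E0
      rw [norm_mul, norm_pow, Complex.norm_exp]
      norm_num
    have h2 : (1 : ℝ) ≤ Real.exp 1024 := Real.one_le_exp (by norm_num)
    have h3 : (2 : ℝ) ≤ Real.exp 1024 := by
      have := Real.add_one_le_exp (1024 : ℝ)
      linarith
    have h4 : 0 ≤ ‖w‖ ^ Q.N := by positivity
    have h5 : 2 * ‖w‖ ^ Q.N ≤ Real.exp 1024 * ‖w‖ ^ Q.N := mul_le_mul_of_nonneg_right h3 h4
    rw [← h1] at h5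
    linarith
  have hD := dd_nrm Q w hw1
  have hg : ‖Q.gA w‖ ≤ 2 := aux_gA _ _ hT' hU
  obtain ⟨ω, hω, hR⟩ := hole0 Q w hw
  refine ⟨⟨Q.C0 ω, ⟨0, ω, hω, Or.inl (aux_rot0 _).symm⟩, ?_⟩, by linarith⟩
  have hdec : Q.PsiA c w - Q.C0 ω = (Q.R0 w - Q.C0 ω) + (fun i => (1 - Q.U1 w) * Q.DD w i) +
      (fun i => Q.gA w * c i) := by
    funext i
    simp only [Par.PsiA, Pi.sub_apply, Pi.add_apply]
    ring
  rw [hdec]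
  have h1 := nrm_add ((Q.R0 w - Q.C0 ω) + (fun i => (1 - Q.U1 w) * Q.DD w i)) (fun i => Q.gA w * c i)
  have h2 := nrm_add (Q.R0 w - Q.C0 ω) (fun i => (1 - Q.U1 w) * Q.DD w i)
  rw [nrm_smul] at h1 h2
  have h3 : ‖1 - Q.U1 w‖ * nrm (Q.DD w) ≤ (2 * (1 / 2 ^ 120)) * 2 := by
    rw [norm_sub_rev]
    exact mul_le_mul hU hD (nrm_nonneg _) (by positivity)
  have h4 : ‖Q.gA w‖ * nrm c ≤ 2 * (1 / 2 ^ 18) :=
    mul_le_mul hg hc (nrm_nonneg _) (by positivity)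
  have h5 : (3 : ℝ) / 2560 + (2 * (1 / 2 ^ 120)) * 2 + 2 * (1 / 2 ^ 18) ≤ 31 / 25600 := by norm_num
  linarith

theorem aux_e0 (Q : Par) : nrm (Q.e0) ≤ 1 := by
  rw [nrm_le_iff _ _ zero_le_one]
  rw [Finset.sum_eq_single (0 : Fin (Q.M + 5))]
  · simp [Par.e0]
  · intro b _ hb
    have : (b : ℕ) ≠ 0 := fun h => hb (Fin.ext h)
    simp [Par.e0, this]
  · intro h
    exact absurd (Finset.mem_univ _) h

/- TARGET -/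
theorem holeA1 (Q : Par) (c : Fin (Q.M + 5) → ℂ) (hc : nrm c ≤ 1 / 2 ^ 18) (w : ℂ)
    (hw0 : w ≠ 0) (hw : ‖1 - Q.E1 w‖ = 2 / 3) : Q.InX (Q.PsiA c w) ∧ ‖Q.gA w‖ ≤ 3 := by
  obtain ⟨hT, hE1, hE2⟩ := th_hole (Q.E1 w) hw
  have hT' : ‖Q.U1 w‖ = 3 / 2 := hT
  obtain ⟨hp, _⟩ := prodE Q w hw0
  rw [mul_comm] at hp
  have hsmall : ‖Q.E0 w‖ ≤ 1 / 2 ^ 120 := aux_small_left _ _ hE1 (norm_nonneg _) hp
  have hU : ‖Q.T0 w - 1‖ ≤ 2 * (1 / 2 ^ 120) := th_small (Q.E0 w) (1 / 2 ^ 120) (by norm_num) hsmall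
  have hw1 : ‖w‖ ≤ 1 := by
    apply aux_norm_le_one Q
    have h1 : ‖Q.E1 w‖ = Real.exp (-1280) / ‖w‖ ^ Q.N := by
      unfold Par.E1
      rw [norm_div, norm_pow, Complex.norm_exp]
      norm_num
    have h2 := exp_tiny (-1280) (by norm_num)
    have h4 : 0 < ‖w‖ ^ Q.N := pow_pos (norm_pos_iff.mpr hw0) _
    have h6 : 1 / 3 * ‖w‖ ^ Q.N ≤ Real.exp (-1280) := by
      rw [h1] at hE1
      rwa [le_div_iff₀ h4] at hE1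
    have h7 : (3 : ℝ) * (1 / 2 ^ 120) ≤ 1 := by norm_num
    linarith
  have hg : ‖Q.gA w‖ ≤ 2 := by
    have h := aux_gA _ _ hT' hU
    have he : Q.gA w = Q.U1 w + Q.T0 w - 1 := by
      unfold Par.gA
      ring
    rw [he]
    exact h
  obtain ⟨ω, hω, hR⟩ := hole1 Q w hw0 hw
  refine ⟨⟨Q.C1 ω, ⟨0, ω, hω, Or.inr (aux_rot0 _).symm⟩, ?_⟩, by linarith⟩
  have hdec : Q.PsiA c w - Q.C1 ω = (Q.R1 w - Q.C1 ω) +
      (fun i => ((Q.T0 w - 1) * (Q.p 0 : ℂ) * w) * Q.e0 i) + (fun i => Q.gA w * c i) := by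
    rw [psiA1]
    funext i
    simp only [Pi.sub_apply, Pi.add_apply]
    ring
  rw [hdec]
  have h1 := nrm_add ((Q.R1 w - Q.C1 ω) + (fun i => ((Q.T0 w - 1) * (Q.p 0 : ℂ) * w) * Q.e0 i))
    (fun i => Q.gA w * c i)
  have h2 := nrm_add (Q.R1 w - Q.C1 ω) (fun i => ((Q.T0 w - 1) * (Q.p 0 : ℂ) * w) * Q.e0 i)
  rw [nrm_smul] at h1 h2
  have hp0 : ‖((Q.p 0 : ℝ) : ℂ)‖ ≤ 1 := by
    rw [Complex.norm_real, Real.norm_of_nonneg (Q.pnn 0)]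
    exact Q.ple 0
  have h3 : ‖(Q.T0 w - 1) * (Q.p 0 : ℂ) * w‖ * nrm (Q.e0) ≤ 2 * (1 / 2 ^ 120) := by
    rw [norm_mul, norm_mul]
    have ha : ‖Q.T0 w - 1‖ * ‖((Q.p 0 : ℝ) : ℂ)‖ ≤ 2 * (1 / 2 ^ 120) * 1 :=
      mul_le_mul hU hp0 (norm_nonneg _) (by positivity)
    have hb : ‖Q.T0 w - 1‖ * ‖((Q.p 0 : ℝ) : ℂ)‖ * ‖w‖ ≤ 2 * (1 / 2 ^ 120) * 1 * 1 :=
      mul_le_mul ha hw1 (norm_nonneg _) (by positivity)
    have hc' : ‖Q.T0 w - 1‖ * ‖((Q.p 0 : ℝ) : ℂ)‖ * ‖w‖ * nrm (Q.e0) ≤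
        2 * (1 / 2 ^ 120) * 1 * 1 * 1 :=
      mul_le_mul hb (aux_e0 Q) (nrm_nonneg _) (by positivity)
    simpa using hc'
  have h4 : ‖Q.gA w‖ * nrm c ≤ 2 * (1 / 2 ^ 18) :=
    mul_le_mul hg hc (nrm_nonneg _) (by positivity)
  have h5 : (61 : ℝ) / 51200 + (2 * (1 / 2 ^ 120)) + 2 * (1 / 2 ^ 18) ≤ 31 / 25600 := by norm_num
  linarith

end Pool.Agent.Helper536.KB.Kha

namespace Pool.Agent.Helper536.KB

theorem holeA0 (Q : Par) (c : Fin (Q.M + 5) → ℂ) (hc : nrm c ≤ 1 / 2 ^ 18) (w : ℂ)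
    (hw0 : w ≠ 0) (hw : ‖1 - Q.E0 w‖ = 2 / 3) : Q.InX (Q.PsiA c w) ∧ ‖Q.gA w‖ ≤ 3 := by
  first
    | exact Kha.holeA0
    | (apply Kha.holeA0 <;> assumption)

theorem holeA1 (Q : Par) (c : Fin (Q.M + 5) → ℂ) (hc : nrm c ≤ 1 / 2 ^ 18) (w : ℂ)
    (hw0 : w ≠ 0) (hw : ‖1 - Q.E1 w‖ = 2 / 3) : Q.InX (Q.PsiA c w) ∧ ‖Q.gA w‖ ≤ 3 := by
  first
    | exact Kha.holeA1
    | (apply Kha.holeA1 <;> assumption)

end Pool.Agent.Helper536.KB
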