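import Pool.Agent.Helper536.Kb.Defs
import Pool.Agent.Helper536.Kb.Knr
import Pool.Agent.Helper536.Kb.Krt

open Finset

namespace Pool.Agent.Helper536.KB.Ks0

theorem rad_one_pow (Q : Par) (k : ℕ) : Q.rad 1 ^ (2 ^ k) = Real.exp (-((2:ℝ) ^ k / 2 ^ Q.M)) := by
  unfold Par.rad
  rw [← Real.exp_nat_mul]
  congr 1
  push_cast
  ring

theorem C0_slot (Q : Par) (ω χ : ℂ) (hω : ‖ω‖ = 1) (i : Fin (Q.M + 5)) (hi : (i : ℕ) ≠ 0) :
    ‖(Q.C0 ω - Q.C0 (χ * ω)) i‖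
      = Q.p i * Real.exp (-((2:ℝ) ^ (i : ℕ) / 2 ^ Q.M)) * ‖χ ^ (2 ^ (i : ℕ)) - 1‖ := by
  have h1 : (Q.C0 ω - Q.C0 (χ * ω)) i
      = ((Q.p i : ℝ) : ℂ) * ((Q.rad 1 ^ (2 ^ (i : ℕ)) : ℝ) : ℂ) *
        (-(ω ^ (2 ^ (i : ℕ)) * (χ ^ (2 ^ (i : ℕ)) - 1))) := by
    show Q.C0 ω i - Q.C0 (χ * ω) i = _
    unfold Par.C0 Par.F0
    rw [if_neg hi, if_neg hi]
    push_cast
    rw [mul_pow, mul_pow, mul_pow]
    ring
  rw [h1, norm_mul, norm_mul, norm_neg, norm_mul, norm_pow, hω, one_pow, one_mul, Complex.norm_real,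
    Complex.norm_real, Real.norm_eq_abs, Real.norm_eq_abs, abs_of_nonneg (Q.pnn _), rad_one_pow,
    abs_of_pos (Real.exp_pos _)]

theorem exp_half : (53/100 : ℝ) ≤ Real.exp (-(1/2)) := by
  have h1 := Real.exp_neg_one_gt_d9
  have h2 : Real.exp (-(1/2)) ^ 2 = Real.exp (-1) := by
    rw [← Real.exp_nat_mul]; norm_num
  have h3 := Real.exp_pos (-(1/2 : ℝ))
  nlinarith

/- TARGET -/
theorem sep0 (Q : Par) (ω ω' : ℂ) (h : ω ^ Q.N = 1) (h' : ω' ^ Q.N = 1) (hne : Q.C0 ω ≠ Q.C0 ω') :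
    31 / 12800 < nrm (Q.C0 ω - Q.C0 ω') := by
  have hN : Q.N ≠ 0 := by unfold Par.N; positivity
  have hω : ‖ω‖ = 1 := Complex.norm_eq_one_of_pow_eq_one h hN
  have hω0 : ω ≠ 0 := by
    rintro rfl; rw [norm_zero] at hω; exact zero_ne_one hω
  obtain ⟨χ, hχdef⟩ : ∃ χ : ℂ, ω' = χ * ω := ⟨ω' / ω, by field_simp⟩
  subst hχdef
  have hχ : χ ^ Q.N = 1 := by
    rw [mul_pow, h, mul_one] at h'
    exact h'
  have hM := Q.hM
  have hJ := Q.hJ
  have hM2 : (0:ℝ) < 2 ^ Q.M := by positivity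
  by_cases h1 : χ ^ (2 ^ Q.M) = 1
  · by_cases hχ1 : χ = 1
    · exfalso; apply hne; rw [hχ1, one_mul]
    obtain ⟨e, he, hee⟩ := chi_near Q.M χ h1 hχ1
    rcases Nat.eq_zero_or_pos e with he0 | he0
    · exfalso
      apply hne
      have hχm : χ = -1 := by rw [he0] at hee; simpa using hee
      funext i
      unfold Par.C0 Par.F0
      by_cases hi : (i : ℕ) = 0
      · rw [if_pos hi, if_pos hi]
      · rw [if_neg hi, if_neg hi]
        congr 1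
        have hev : Even (2 ^ (i : ℕ)) := (Nat.even_pow.mpr ⟨even_two, hi⟩)
        rw [hχm]
        rw [show (-1 * ω * (Q.rad 1 : ℂ)) = -(ω * (Q.rad 1 : ℂ)) by ring, hev.neg_pow]
    · have hslot := C0_slot Q ω χ hω ⟨e, by omega⟩ (by simpa using he0.ne')
      have hle := norm_le_nrm (Q.C0 ω - Q.C0 (χ * ω)) ⟨e, by omega⟩
      rw [hslot] at hle
      simp only [hee] at hle
      rw [show (-1 - 1 : ℂ) = ((-2 : ℝ) : ℂ) by push_cast; norm_num, Complex.norm_real] at hle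
      rw [show ‖(-2 : ℝ)‖ = 2 by norm_num] at hle
      refine lt_of_lt_of_le ?_ hle
      rcases le_or_gt Q.J e with hJe | hJe
      · rw [Q.pone e hJe (by omega)]
        have hs : (2:ℝ) ^ e / 2 ^ Q.M ≤ 1/2 := by
          rw [div_le_div_iff₀ hM2 (by norm_num)]
          have : (2:ℝ) ^ (e + 1) ≤ 2 ^ Q.M := pow_le_pow_right₀ (by norm_num) (by omega)
          rw [pow_succ] at this
          linarith
        have : Real.exp (-(1/2)) ≤ Real.exp (-((2:ℝ) ^ e / 2 ^ Q.M)) :=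
          Real.exp_le_exp.mpr (by linarith)
        have h3 := exp_half
        linarith
      · have hp : ∀ k, 1 ≤ k → k ≤ e → 13/10240 ≤ Q.p k := by
          intro k hk
          induction k, hk using Nat.le_induction with
          | base => intro _; rw [Q.p1]
          | succ k hk ih =>
            intro hke
            exact (ih (by omega)).trans (Q.pmono k hk (by omega))
        have hpe := hp e he0 le_rfl
        have hs : (2:ℝ) ^ e / 2 ^ Q.M ≤ 1/4096 := by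
          rw [div_le_div_iff₀ hM2 (by norm_num)]
          have : (2:ℝ) ^ (e + 12) ≤ 2 ^ Q.M := pow_le_pow_right₀ (by norm_num) (by omega)
          rw [pow_add] at this
          norm_num at this
          linarith
        have h2 := Real.add_one_le_exp (-((2:ℝ) ^ e / 2 ^ Q.M))
        have h3 : 1 - 1/4096 ≤ Real.exp (-((2:ℝ) ^ e / 2 ^ Q.M)) := by linarith
        have h4 : (13/10240 : ℝ) * (1 - 1/4096) ≤ Q.p e * Real.exp (-((2:ℝ) ^ e / 2 ^ Q.M)) :=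
          mul_le_mul hpe h3 (by norm_num) (Q.pnn e)
        show 31 / 12800 < Q.p e * Real.exp (-((2:ℝ) ^ e / 2 ^ Q.M)) * 2
        norm_num at h4 ⊢
        linarith
  · have hfar := chi_far Q.M (by omega) χ hχ h1
    have hsq := nrm_sq (Q.C0 ω - Q.C0 (χ * ω))
    let i0 : Fin (Q.M + 5) := ⟨Q.M - 2, by omega⟩
    let i1 : Fin (Q.M + 5) := ⟨Q.M - 1, by omega⟩
    let i2 : Fin (Q.M + 5) := ⟨Q.M, by omega⟩
    have s0 := C0_slot Q ω χ hω i0 (by show Q.M - 2 ≠ 0; omega)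
    have s1 := C0_slot Q ω χ hω i1 (by show Q.M - 1 ≠ 0; omega)
    have s2 := C0_slot Q ω χ hω i2 (by show Q.M ≠ 0; omega)
    have p0 : Q.p (i0 : ℕ) = 1 := Q.pone _ (by show Q.J ≤ Q.M - 2; omega) i0.2
    have p1 : Q.p (i1 : ℕ) = 1 := Q.pone _ (by show Q.J ≤ Q.M - 1; omega) i1.2
    have p2 : Q.p (i2 : ℕ) = 1 := Q.pone _ (by show Q.J ≤ Q.M; omega) i2.2
    rw [p0, one_mul] at s0
    rw [p1, one_mul] at s1
    rw [p2, one_mul] at s2
    have r0 : (2:ℝ) ^ (i0 : ℕ) / 2 ^ Q.M = 1/4 := by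
      have : (2:ℝ) ^ Q.M = 2 ^ (Q.M - 2) * 4 := by
        conv_lhs => rw [show Q.M = (Q.M - 2) + 2 by omega]
        rw [pow_add]; norm_num
      show (2:ℝ) ^ (Q.M - 2) / 2 ^ Q.M = 1/4
      rw [this]; field_simp
    have r1 : (2:ℝ) ^ (i1 : ℕ) / 2 ^ Q.M = 1/2 := by
      have : (2:ℝ) ^ Q.M = 2 ^ (Q.M - 1) * 2 := by
        conv_lhs => rw [show Q.M = (Q.M - 1) + 1 by omega]
        rw [pow_add]; norm_num
      show (2:ℝ) ^ (Q.M - 1) / 2 ^ Q.M = 1/2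
      rw [this]; field_simp
    have r2 : (2:ℝ) ^ (i2 : ℕ) / 2 ^ Q.M = 1 := by
      show (2:ℝ) ^ Q.M / 2 ^ Q.M = 1
      field_simp
    rw [r0] at s0
    rw [r1] at s1
    rw [r2] at s2
    have hsum : ‖(Q.C0 ω - Q.C0 (χ * ω)) i0‖ ^ 2 + ‖(Q.C0 ω - Q.C0 (χ * ω)) i1‖ ^ 2
        + ‖(Q.C0 ω - Q.C0 (χ * ω)) i2‖ ^ 2 ≤ ∑ i, ‖(Q.C0 ω - Q.C0 (χ * ω)) i‖ ^ 2 := by
      have hsub : ({i0, i1, i2} : Finset (Fin (Q.M + 5))) ⊆ Finset.univ := Finset.subset_univ _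
      have h01 : i0 ≠ i1 := by
        intro hh; have := congrArg Fin.val hh; simp only [i0, i1] at this; omega
      have h02 : i0 ≠ i2 := by
        intro hh; have := congrArg Fin.val hh; simp only [i0, i2] at this; omega
      have h12 : i1 ≠ i2 := by
        intro hh; have := congrArg Fin.val hh; simp only [i1, i2] at this; omega
      have := Finset.sum_le_sum_of_subset_of_nonneg (f := fun i => ‖(Q.C0 ω - Q.C0 (χ * ω)) i‖ ^ 2)
        hsub (fun i _ _ => by positivity)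
      rw [Finset.sum_insert (by simp [h01, h02]), Finset.sum_insert (by simp [h12]),
        Finset.sum_singleton] at this
      linarith
    have e1 : Real.exp (-(1/4)) ^ 2 = Real.exp (-(1/2)) := by
      rw [← Real.exp_nat_mul]; norm_num
    have e2 : Real.exp (-(1/2)) ^ 2 = Real.exp (-1) := by
      rw [← Real.exp_nat_mul]; norm_num
    have e3 := Real.exp_neg_one_gt_d9
    have e4 := exp_half
    have t0 : ‖(Q.C0 ω - Q.C0 (χ * ω)) i0‖ ^ 2 ≥ 53/100 * ‖χ ^ (2 ^ (Q.M - 2)) - 1‖ ^ 2 := by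
      rw [s0, mul_pow, e1]
      show _ ≥ _
      exact mul_le_mul_of_nonneg_right e4 (by positivity)
    have t1 : ‖(Q.C0 ω - Q.C0 (χ * ω)) i1‖ ^ 2 ≥ 28/100 * ‖χ ^ (2 ^ (Q.M - 1)) - 1‖ ^ 2 := by
      rw [s1, mul_pow, e2]
      exact mul_le_mul_of_nonneg_right (by linarith) (by positivity)
    have t2 : ‖(Q.C0 ω - Q.C0 (χ * ω)) i2‖ ^ 2 ≥ 8/100 * ‖χ ^ (2 ^ Q.M) - 1‖ ^ 2 := by
      rw [s2, mul_pow]
      refine mul_le_mul_of_nonneg_right ?_ (by positivity)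
      nlinarith
    have hfin : (31 / 12800 : ℝ) ^ 2 < nrm (Q.C0 ω - Q.C0 (χ * ω)) ^ 2 := by
      rw [hsq]; linarith
    exact lt_of_pow_lt_pow_left₀ 2 (nrm_nonneg _) hfin

end Pool.Agent.Helper536.KB.Ks0

namespace Pool.Agent.Helper536.KB

theorem sep0 (Q : Par) (ω ω' : ℂ) (h : ω ^ Q.N = 1) (h' : ω' ^ Q.N = 1) (hne : Q.C0 ω ≠ Q.C0 ω') :
    31 / 12800 < nrm (Q.C0 ω - Q.C0 ω') := by
  first
    | exact Ks0.sep0
    | (apply Ks0.sep0 <;> assumption)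

end Pool.Agent.Helper536.KB
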