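import Pool.Agent.Helper536.Kb.Defs
import Pool.Agent.Helper536.Kb.Kab
import Pool.Agent.Helper536.Kb.Kfi
import Pool.Agent.Helper536.Kb.Knr
import Pool.Agent.Helper536.Kb.KpA
import Pool.Agent.Helper536.Kb.KpB
import Pool.Agent.Helper536.Kb.Khu
import Pool.Agent.Helper536.Kb.Kse

open Finset

namespace Pool.Agent.Helper536.KB.Khol

theorem hull_abstract_hol {n : ℕ} (X T : (Fin n → ℂ) → Prop) (P : (Fin n → ℂ) → ℂ) (m : ℝ)
    (hm : 0 ≤ m) (hX : ∀ x, X x → ‖P x‖ ≤ m)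
    (hXb : ∀ x, X x → ∀ i, ‖x i‖ ≤ 2) (hTb : ∀ x, T x → ∀ i, ‖x i‖ ≤ 2)
    (hP : ∀ x : Fin n → ℂ, (∀ i, ‖x i‖ ≤ 2) → DifferentiableAt ℂ P x)
    (hT : ∃ B : ℝ, ∀ x, T x → ‖P x‖ ≤ B)
    (piece : ∀ p, T p → ∃ (G : Set ℂ) (Ψ : ℂ → Fin n → ℂ) (g : ℂ → ℂ) (v₀ : ℂ),
      Bornology.IsBounded G ∧ v₀ ∈ G ∧
      (∀ v ∈ closure G, (∀ i, DifferentiableAt ℂ (fun z => Ψ z i) v) ∧ DifferentiableAt ℂ g v) ∧
      Ψ v₀ = p ∧ 1 / 2 ≤ ‖g v₀‖ ∧
      ∀ v ∈ frontier G, (X (Ψ v) ∧ ‖g v‖ ≤ 3) ∨ (T (Ψ v) ∧ ‖g v‖ ≤ 1 / 4)) :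
    ∀ p, T p → ‖P p‖ ≤ m := by
  intro p0 hp0
  by_contra hcon
  push Not at hcon
  set A : Set ℝ := (fun x => ‖P x‖) '' {x | T x} with hA
  obtain ⟨B, hB⟩ := hT
  have hbdd : BddAbove A := by
    refine ⟨B, ?_⟩
    rintro _ ⟨x, hx, rfl⟩
    exact hB x hx
  have hne : A.Nonempty := ⟨_, p0, hp0, rfl⟩
  set S : ℝ := sSup A with hS
  have hle : ∀ x, T x → ‖P x‖ ≤ S := fun x hx => le_csSup hbdd ⟨x, hx, rfl⟩
  have hmS : m < S := lt_of_lt_of_le hcon (hle p0 hp0)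
  have hS0 : 0 < S := lt_of_le_of_lt hm hmS
  -- choose k
  obtain ⟨k, hk⟩ : ∃ k : ℕ, (m / S) ^ k < 1 / 12 :=
    exists_pow_lt_of_lt_one (by norm_num) ((div_lt_one hS0).2 hmS)
  have hk1 : 1 ≤ k := by
    rcases Nat.eq_zero_or_pos k with h | h
    · subst h; norm_num at hk
    · exact h
  have hkS : 6 * m ^ k ≤ S ^ k / 2 := by
    rw [div_pow, div_lt_iff₀ (by positivity)] at hk
    linarith
  -- key bound
  have key : ∀ p, T p → ‖P p‖ ^ k ≤ S ^ k / 2 := by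
    intro p hp
    obtain ⟨G, Ψ, g, v₀, hG, hv₀, hd, hΨ, hg, hfr⟩ := piece p hp
    have hco : ∀ v ∈ closure G, ∀ i, ‖Ψ v i‖ ≤ 2 := by
      intro v hv i
      have hdc : DiffContOnCl ℂ (fun v => Ψ v i) G := by
        apply DifferentiableOn.diffContOnCl
        intro v hv
        exact ((hd v hv).1 i).differentiableWithinAt
      refine Complex.norm_le_of_forall_mem_frontier_norm_le hG hdc ?_ hv
      intro v hv
      rcases hfr v hv with ⟨h1, _⟩ | ⟨h1, _⟩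
      · exact hXb _ h1 i
      · exact hTb _ h1 i
    have hdc : DiffContOnCl ℂ (fun v => (P (Ψ v)) ^ k * g v) G := by
      apply DifferentiableOn.diffContOnCl
      intro v hv
      obtain ⟨h1, h2⟩ := hd v hv
      have h3 : DifferentiableAt ℂ Ψ v := differentiableAt_pi.2 h1
      have h4 : DifferentiableAt ℂ (fun v => P (Ψ v)) v :=
        DifferentiableAt.comp v (hP (Ψ v) (hco v hv)) h3
      exact ((h4.pow k).mul h2).differentiableWithinAt
    have hb : ∀ v ∈ frontier G, ‖(P (Ψ v)) ^ k * g v‖ ≤ S ^ k / 4 := by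
      intro v hv
      rw [norm_mul, norm_pow]
      rcases hfr v hv with ⟨h1, h2⟩ | ⟨h1, h2⟩
      · calc ‖P (Ψ v)‖ ^ k * ‖g v‖ ≤ m ^ k * 3 := by
              apply mul_le_mul (pow_le_pow_left₀ (norm_nonneg _) (hX _ h1) k) h2 (norm_nonneg _)
                (by positivity)
          _ ≤ S ^ k / 4 := by linarith
      · calc ‖P (Ψ v)‖ ^ k * ‖g v‖ ≤ S ^ k * (1 / 4) := by
              apply mul_le_mul (pow_le_pow_left₀ (norm_nonneg _) (hle _ h1) k) h2 (norm_nonneg _)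
                (by positivity)
          _ = S ^ k / 4 := by ring
    have hmax := Complex.norm_le_of_forall_mem_frontier_norm_le hG hdc hb (subset_closure hv₀)
    rw [norm_mul, norm_pow, hΨ] at hmax
    have : ‖P p‖ ^ k * (1 / 2) ≤ ‖P p‖ ^ k * ‖g v₀‖ :=
      mul_le_mul_of_nonneg_left hg (by positivity)
    linarith
  -- choose p close to the sup
  have hk0 : (0 : ℝ) < k := by exact_mod_cast hk1
  set t : ℝ := 1 - 1 / (4 * k) with ht
  have htpos : 0 ≤ t := by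
    have : 1 / (4 * (k : ℝ)) ≤ 1 := by
      rw [div_le_one (by positivity)]
      have : (1 : ℝ) ≤ k := by exact_mod_cast hk1
      linarith
    linarith
  have ht1 : t < 1 := by
    have : 0 < 1 / (4 * (k : ℝ)) := by positivity
    linarith
  have htk : 3 / 4 ≤ t ^ k := by
    have h1 := one_add_mul_le_pow (a := -(1 / (4 * (k : ℝ)))) (by linarith) k
    have h2 : 1 + (k : ℝ) * -(1 / (4 * (k : ℝ))) = 3 / 4 := by
      field_simp; norm_num
    rw [h2] at h1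
    rw [ht, sub_eq_add_neg]
    exact h1
  have hlt : t * S < sSup A := by
    rw [← hS]; nlinarith
  obtain ⟨_, ⟨p, hp, rfl⟩, hlt'⟩ := exists_lt_of_lt_csSup hne hlt
  have h1 : (t * S) ^ k ≤ ‖P p‖ ^ k :=
    pow_le_pow_left₀ (by positivity) hlt'.le k
  have h2 := key p hp
  rw [mul_pow] at h1
  have h3 : 0 < S ^ k := by positivity
  nlinarith

theorem InT_bd (Q : Par) (x : Fin (Q.M + 5) → ℂ) (hx : Q.InT x) (i : Fin (Q.M + 5)) :
    ‖x i‖ ≤ 2 := by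
  obtain ⟨j, w, η, hη, hc⟩ := hx
  have h1 : ‖η (i - j)‖ ≤ 1 := by
    refine (norm_le_nrm η (i - j)).trans (hη.trans ?_)
    norm_num
  rcases hc with ⟨hw, rfl⟩ | ⟨hw, rfl⟩
  · have hw1 : ‖w‖ ≤ 1 := by rw [hw]; exact Khu.hull_rad_le Q _ (by norm_num)
    have h2 : ‖Q.FA w (i - j)‖ ≤ 1 := Khu.hull_coord Q w hw1 _ _
    have h3 : rot j (Q.FA w + η) i = Q.FA w (i - j) + η (i - j) := rfl
    rw [h3]
    refine (norm_add_le _ _).trans ?_
    linarith
  · have hw1 : ‖w‖ ≤ 1 := by rw [hw]; exact Khu.hull_rad_le Q _ (by norm_num)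
    have h2 : ‖Q.FB w (i - j)‖ ≤ 1 := Khu.hull_coord Q w hw1 _ _
    have h3 : rot j (Q.FB w + η) i = Q.FB w (i - j) + η (i - j) := rfl
    rw [h3]
    refine (norm_add_le _ _).trans ?_
    linarith

theorem InX_bd (Q : Par) (x : Fin (Q.M + 5) → ℂ) (hx : Q.InX x) (i : Fin (Q.M + 5)) :
    ‖x i‖ ≤ 2 := by
  obtain ⟨c, ⟨j, ω, hω, hc⟩, hn⟩ := hx
  have hω1 : ‖ω‖ = 1 := Complex.norm_eq_one_of_pow_eq_one hω (by unfold Par.N; positivity)
  have hr : ∀ y : ℝ, 0 ≤ y → ‖ω * (Q.rad y : ℂ)‖ ≤ 1 := by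
    intro y hy
    have h0 : 0 ≤ Q.rad y := (Real.exp_pos _).le
    rw [norm_mul, hω1, one_mul, Complex.norm_real, Real.norm_of_nonneg h0]
    exact Khu.hull_rad_le Q y hy
  have hci : ‖c i‖ ≤ 1 := by
    rcases hc with rfl | rfl
    · show ‖Q.C0 ω (i - j)‖ ≤ 1
      unfold Par.C0 Par.F0
      split_ifs
      · simp
      · exact Khu.hull_coord Q _ (hr 1 zero_le_one) _ _
    · show ‖Q.C1 ω (i - j)‖ ≤ 1
      unfold Par.C1 Par.FB
      exact Khu.hull_coord Q _ (hr (5 / 4) (by norm_num)) _ _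
  have h1 := norm_le_nrm (x - c) i
  have h2 : x i = (x - c) i + c i := by simp
  rw [h2]
  refine (norm_add_le _ _).trans ?_
  have h3 : (31 / 25600 : ℝ) ≤ 1 := by norm_num
  linarith

theorem hull_hol (Q : Par) (P : (Fin (Q.M + 5) → ℂ) → ℂ) (m : ℝ) (hm : 0 ≤ m)
    (hP : ∀ x : Fin (Q.M + 5) → ℂ, (∀ i, ‖x i‖ ≤ 2) → DifferentiableAt ℂ P x)
    (hX : ∀ x, Q.InX x → ‖P x‖ ≤ m) :
    ∀ p, Q.InT p → ‖P p‖ ≤ m := by
  apply hull_abstract_hol Q.InX Q.InT P m hm hX (InX_bd Q) (InT_bd Q) hP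
  · obtain ⟨B, hB⟩ := (isCompact_closedBall (0 : Fin (Q.M + 5) → ℂ) 2).exists_bound_of_continuousOn
      (f := P) (fun x hx => (hP x (by
        rw [mem_closedBall_zero_iff, pi_norm_le_iff_of_nonneg (by norm_num)] at hx
        exact hx)).continuousAt.continuousWithinAt)
    refine ⟨B, fun x hx => hB x ?_⟩
    rw [mem_closedBall_zero_iff, pi_norm_le_iff_of_nonneg (by norm_num)]
    exact InT_bd Q x hx
  · rintro p ⟨j, w, η, hη, hc⟩
    rcases hc with ⟨hw, rfl⟩ | ⟨hw, rfl⟩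
    · obtain ⟨G, Ψ, g, v₀, hG, hv₀, hd, h1, h2, h3⟩ := pieceA Q w η hw hη
      refine ⟨G, fun v => rot j (Ψ v), g, v₀, hG, hv₀, ?_, ?_, h2, ?_⟩
      · intro v hv
        exact ⟨fun i => (hd v hv).1 (i - j), (hd v hv).2⟩
      · show rot j (Ψ v₀) = _
        rw [h1]
      · intro v hv
        rcases h3 v hv with ⟨h4, h5⟩ | ⟨h4, h5⟩
        · exact Or.inl ⟨Khu.hull_InX_rot Q j _ h4, h5⟩
        · exact Or.inr ⟨Khu.hull_InT_rot Q j _ h4, h5⟩
    · obtain ⟨G, Ψ, g, v₀, hG, hv₀, hd, h1, h2, h3⟩ := pieceB Q w η hw hη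
      refine ⟨G, fun v => rot (j - 1) (Ψ v), g, v₀, hG, hv₀, ?_, ?_, h2, ?_⟩
      · intro v hv
        exact ⟨fun i => (hd v hv).1 (i - (j - 1)), (hd v hv).2⟩
      · show rot (j - 1) (Ψ v₀) = _
        rw [h1, rot_rot, sub_add_cancel]
      · intro v hv
        rcases h3 v hv with ⟨h4, h5⟩ | ⟨h4, h5⟩
        · exact Or.inl ⟨Khu.hull_InX_rot Q (j - 1) _ h4, h5⟩
        · exact Or.inr ⟨Khu.hull_InT_rot Q (j - 1) _ h4, h5⟩

theorem nrm_eq_toLp {n : ℕ} (x : Fin n → ℂ) : ‖(WithLp.toLp 2 x : EuclideanSpace ℂ (Fin n))‖ = nrm x := by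
  rw [EuclideanSpace.norm_eq]
  rfl

/-- Kallin's problem fails for holomorphic functions on a fixed large ball: finitely many pairwise
disjoint closed Euclidean balls in `ℂⁿ`, a point `q` outside all of them, and `Λ` such that every
`f` complex differentiable on the closed ball of radius `Λ` satisfies `|f q| ≤ max |f|` over the
union of the balls. -/
theorem kallin_hol : ∃ (n k : ℕ) (c : Fin k → EuclideanSpace ℂ (Fin n)) (r : Fin k → ℝ)
    (q : EuclideanSpace ℂ (Fin n)) (Λ : ℝ), (∀ i, 0 < r i) ∧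
    (∀ i j, i ≠ j → r i + r j < ‖c i - c j‖) ∧ (∀ i, r i < ‖q - c i‖) ∧
    ∀ f : EuclideanSpace ℂ (Fin n) → ℂ, (∀ x, ‖x‖ ≤ Λ → DifferentiableAt ℂ f x) →
      ∃ i, ∃ y, ‖y - c i‖ ≤ r i ∧ ‖f q‖ ≤ ‖f y‖ := by
  obtain ⟨Q⟩ := par_exists
  have hr0 : (0:ℝ) ≤ 31/25600 := by norm_num
  let S : Finset (Fin (Q.M + 5) → ℂ) := (fin_cen Q).toFinset
  let e := S.equivFin
  let c : Fin S.card → (Fin (Q.M + 5) → ℂ) := fun i => (e.symm i : Fin (Q.M + 5) → ℂ)
  have hcmem : ∀ i, c i ∈ Q.Cen := fun i => (Set.Finite.mem_toFinset _).mp (e.symm i).2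
  have hcinj : ∀ i j, i ≠ j → c i ≠ c j := by
    intro i j hij h
    exact hij (e.symm.injective (Subtype.ext h))
  have hcsurj : ∀ x ∈ Q.Cen, ∃ i, c i = x := by
    intro x hx
    refine ⟨e ⟨x, (Set.Finite.mem_toFinset _).mpr hx⟩, ?_⟩
    simp [c]
  have hz0 : nrm (0 : Fin (Q.M + 5) → ℂ) ≤ 0 := by
    rw [nrm_le_iff _ _ le_rfl]
    simp
  refine ⟨Q.M + 5, S.card, fun i => WithLp.toLp 2 (c i), fun _ => 31/25600,
    WithLp.toLp 2 (Q.FA (Q.rad (9/8) : ℂ)), 2 * Real.sqrt (Q.M + 5), fun _ => by norm_num, ?_, ?_, ?_⟩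
  · intro i j hij
    have h3 := sep Q (c i) (hcmem i) (c j) (hcmem j) (hcinj i j hij)
    rw [← WithLp.toLp_sub, nrm_eq_toLp]
    linarith
  · intro i
    have h1 := zout Q (c i) (hcmem i)
    rw [← WithLp.toLp_sub, nrm_eq_toLp]
    linarith
  · intro f hf
    let P : (Fin (Q.M + 5) → ℂ) → ℂ := fun x => f (WithLp.toLp 2 x)
    have hP : ∀ x : Fin (Q.M + 5) → ℂ, (∀ i, ‖x i‖ ≤ 2) → DifferentiableAt ℂ P x := by
      intro x hx
      have h1 : ‖(WithLp.toLp 2 x : EuclideanSpace ℂ (Fin (Q.M + 5)))‖ ≤ 2 * Real.sqrt (Q.M + 5) := by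
        rw [EuclideanSpace.norm_eq, Real.sqrt_le_left (by positivity)]
        rw [mul_pow, Real.sq_sqrt (by positivity)]
        calc ∑ i, ‖(WithLp.toLp 2 x : EuclideanSpace ℂ (Fin (Q.M + 5))) i‖ ^ 2
            ≤ ∑ _i : Fin (Q.M + 5), (2:ℝ) ^ 2 := by
              apply Finset.sum_le_sum
              intro i _
              exact pow_le_pow_left₀ (norm_nonneg _) (hx i) 2
          _ = 2 ^ 2 * ((Q.M : ℝ) + 5) := by
              rw [Finset.sum_const, Finset.card_univ, Fintype.card_fin, nsmul_eq_mul]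
              push_cast
              ring
      have h2 : DifferentiableAt ℂ (fun x : Fin (Q.M + 5) → ℂ =>
          (WithLp.toLp 2 x : EuclideanSpace ℂ (Fin (Q.M + 5)))) x :=
        (PiLp.continuousLinearEquiv 2 ℂ (fun _ : Fin (Q.M + 5) => ℂ)).symm.differentiableAt
      exact DifferentiableAt.comp x (hf _ h1) h2
    -- the union of the balls is compact
    let B : Fin S.card → Set (Fin (Q.M + 5) → ℂ) := fun i => {x | nrm (x - c i) ≤ 31/25600}
    have hcn : Continuous (fun x : Fin (Q.M + 5) → ℂ => nrm x) := by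
      unfold nrm
      fun_prop
    have hBc : ∀ i, IsCompact (B i) := by
      intro i
      refine (isCompact_closedBall (c i) (31/25600 : ℝ)).of_isClosed_subset ?_ ?_
      · exact isClosed_le (hcn.comp (by fun_prop)) continuous_const
      · intro x h1
        rw [Metric.mem_closedBall, dist_pi_le_iff hr0]
        intro m
        rw [dist_eq_norm]
        exact (norm_le_nrm (x - c i) m).trans h1
    have hX : IsCompact (⋃ i, B i) := isCompact_iUnion hBc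
    have hXmem : ∀ x, Q.InX x → x ∈ ⋃ i, B i := by
      rintro x ⟨c', hc', hx⟩
      obtain ⟨i, rfl⟩ := hcsurj c' hc'
      exact Set.mem_iUnion.mpr ⟨i, hx⟩
    have hmemX : ∀ x, x ∈ ⋃ i, B i → Q.InX x := by
      intro x hx
      obtain ⟨i, hi⟩ := Set.mem_iUnion.mp hx
      exact ⟨c i, hcmem i, hi⟩
    have hne : (⋃ i, B i).Nonempty := by
      refine ⟨rot 0 (Q.C0 1), hXmem _ ⟨rot 0 (Q.C0 1), ⟨0, 1, one_pow _, Or.inl rfl⟩, ?_⟩⟩
      rw [sub_self]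
      exact hz0.trans hr0
    obtain ⟨x0, hx0, hmax⟩ := hX.exists_isMaxOn hne (f := fun x => ‖P x‖)
      (fun x hx => ((hP x (InX_bd Q x (hmemX x hx))).continuousAt.norm).continuousWithinAt)
    obtain ⟨i0, hi0⟩ := Set.mem_iUnion.mp hx0
    have hT : Q.InT (Q.FA (Q.rad (9/8) : ℂ)) := by
      refine ⟨0, (Q.rad (9/8) : ℂ), 0, hz0.trans (by positivity), Or.inl ⟨?_, ?_⟩⟩
      · rw [Complex.norm_real, Real.norm_of_nonneg]
        exact (Real.exp_pos _).le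
      · funext i
        simp [rot]
    have h2 := hull_hol Q P ‖P x0‖ (norm_nonneg _) hP (fun x hx => hmax (hXmem x hx)) _ hT
    refine ⟨i0, WithLp.toLp 2 x0, ?_, h2⟩
    rw [← WithLp.toLp_sub, nrm_eq_toLp]
    exact hi0

end Pool.Agent.Helper536.KB.Khol

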